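import Mathlib

/-!
A one-dimensional maximal inequality (Vitali covering) for finitely many integer points.
-/

namespace Pool.Agent.Lib.MP_70146a_co

open Finset

/-- The number of indices `s < S` with `κ s` within distance `g` of `x`. -/
def nu (S : ℕ) (κ : ℕ → ℤ) (x : ℤ) (g : ℕ) : ℕ :=
  ((range S).filter fun s => |κ s - x| ≤ (g : ℤ)).card

/-- The number of `s' < S` in the same cell as `s`. -/
def cell (S : ℕ) (κ : ℕ → ℤ) (s : ℕ) : ℕ := ((range S).filter fun s' => κ s' = κ s).card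

/-- The number of pairs in the same cell. -/
def energy (S : ℕ) (κ : ℕ → ℤ) : ℕ := ∑ s ∈ range S, cell S κ s

lemma nu_le (S : ℕ) (κ : ℕ → ℤ) (x : ℤ) (g : ℕ) : nu S κ x g ≤ S := by
  unfold nu
  exact (Finset.card_filter_le _ _).trans (by rw [card_range])

lemma nu_sq_le (S : ℕ) (κ : ℕ → ℤ) (x : ℤ) (g : ℕ) :
    (nu S κ x g) ^ 2 ≤ (2 * g + 1) *
      ∑ s ∈ (range S).filter (fun s => |κ s - x| ≤ (g : ℤ)), cell S κ s := by
  set A := (range S).filter (fun s => |κ s - x| ≤ (g : ℤ)) with hA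
  have hmaps : ∀ s ∈ A, κ s ∈ Finset.Icc (x - g) (x + g) := by
    intro s hs
    rw [hA, Finset.mem_filter, abs_le] at hs
    rw [Finset.mem_Icc]
    omega
  have h1 : A.card = ∑ y ∈ Finset.Icc (x - g) (x + g), (A.filter fun s => κ s = y).card :=
    Finset.card_eq_sum_card_fiberwise hmaps
  have h2 : ∑ y ∈ Finset.Icc (x - g) (x + g), (A.filter fun s => κ s = y).card ^ 2
      ≤ ∑ s ∈ A, cell S κ s := by
    rw [← Finset.sum_fiberwise_of_maps_to hmaps]
    apply Finset.sum_le_sum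
    intro y _
    rw [sq, ← smul_eq_mul, ← Finset.sum_const]
    apply Finset.sum_le_sum
    intro s hs
    rw [Finset.mem_filter] at hs
    unfold cell
    apply Finset.card_le_card
    intro s' hs'
    rw [Finset.mem_filter] at hs' ⊢
    rw [hA, Finset.mem_filter] at hs'
    exact ⟨hs'.1.1, by rw [hs'.2, hs.2]⟩
  have h3 : nu S κ x g = A.card := rfl
  rw [h3, h1]
  refine (sq_sum_le_card_mul_sum_sq (s := Finset.Icc (x - g) (x + g))
    (f := fun y => (A.filter fun s => κ s = y).card)).trans ?_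
  have h4 : (Finset.Icc (x - (g : ℤ)) (x + g)).card = 2 * g + 1 := by
    rw [Int.card_Icc]
    omega
  rw [h4]
  exact Nat.mul_le_mul_left _ h2

/-- The set of bad indices. -/
noncomputable def bad (S : ℕ) (κ : ℕ → ℤ) (θ : ℝ) : Finset ℕ := by
  classical
  exact (range S).filter fun s => ∃ g : ℕ, 1 ≤ g ∧ θ * g < nu S κ (κ s) g

lemma mem_bad (S : ℕ) (κ : ℕ → ℤ) (θ : ℝ) (s : ℕ) :
    s ∈ bad S κ θ ↔ s < S ∧ ∃ g : ℕ, 1 ≤ g ∧ θ * g < nu S κ (κ s) g := by
  classical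
  unfold bad
  rw [Finset.mem_filter, mem_range]

theorem card_bad_le (S : ℕ) (κ : ℕ → ℤ) (θ : ℝ) (hθ : 0 < θ) :
    ((bad S κ θ).card : ℝ) ≤ 9 * energy S κ / θ := by
  classical
  -- maximal radius
  have hmax : ∀ s ∈ bad S κ θ, ∃ g : ℕ, 1 ≤ g ∧ θ * g < nu S κ (κ s) g ∧ g ≤ ⌈S / θ⌉₊ ∧
      ∀ g' : ℕ, g < g' → (nu S κ (κ s) g' : ℝ) ≤ θ * g' := by
    intro s hs
    rw [mem_bad] at hs
    obtain ⟨_, g₀, hg₀1, hg₀2⟩ := hs
    let P : ℕ → Prop := fun g => 1 ≤ g ∧ θ * g < nu S κ (κ s) g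
    have hbound : ∀ g, P g → g ≤ ⌈S / θ⌉₊ := by
      intro g hg
      have h1 : (nu S κ (κ s) g : ℝ) ≤ S := by exact_mod_cast nu_le S κ (κ s) g
      have h2 : (g : ℝ) ≤ S / θ := by
        rw [le_div_iff₀ hθ]
        have := hg.2
        linarith
      have h3 := Nat.le_ceil (S / θ)
      exact_mod_cast h2.trans h3
    have hspec : P (Nat.findGreatest P ⌈S / θ⌉₊) :=
      Nat.findGreatest_spec (hbound g₀ ⟨hg₀1, hg₀2⟩) ⟨hg₀1, hg₀2⟩
    refine ⟨Nat.findGreatest P ⌈S / θ⌉₊, hspec.1, hspec.2, Nat.findGreatest_le _, ?_⟩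
    intro g' hg'
    by_contra hcon
    push Not at hcon
    have hP : P g' := ⟨by omega, hcon⟩
    exact Nat.findGreatest_is_greatest hg' (hbound g' hP) hP
  choose! r hr1 hr2 hr3 hr4 using hmax
  obtain ⟨u, hu, hdisj, hcov⟩ := Vitali.exists_disjoint_subfamily_covering_enlargement
    (fun a : ℕ => Set.Icc (κ a - r a) (κ a + r a)) (↑(bad S κ θ) : Set ℕ) (fun a => (r a : ℝ))
    (3 / 2) (by norm_num) (fun a _ => by positivity) (⌈S / θ⌉₊ : ℝ)
    (fun a ha => by exact_mod_cast hr3 a ha)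
    (fun a _ => ⟨κ a, by rw [Set.mem_Icc]; constructor <;> omega⟩)
  set u' := (bad S κ θ).filter (fun s => s ∈ u) with hu'
  have hcover : bad S κ θ ⊆ u'.biUnion fun s₀ =>
      (range S).filter fun s => |κ s - κ s₀| ≤ ((3 * r s₀ : ℕ) : ℤ) := by
    intro s hs
    obtain ⟨s₀, hs₀u, ⟨y, hy1, hy2⟩, hle⟩ := hcov s hs
    rw [Finset.mem_biUnion]
    refine ⟨s₀, Finset.mem_filter.mpr ⟨hu hs₀u, hs₀u⟩, ?_⟩
    rw [Finset.mem_filter]
    refine ⟨mem_range.mpr ((mem_bad _ _ _ _).mp hs).1, ?_⟩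
    simp only [Set.mem_Icc] at hy1 hy2
    have h1 : 2 * r s ≤ 3 * r s₀ := by
      have : (2 : ℝ) * r s ≤ 3 * r s₀ := by linarith
      exact_mod_cast this
    rw [abs_le]
    push_cast
    omega
  have h1 : ((bad S κ θ).card : ℝ) ≤ ∑ s₀ ∈ u', 3 * (nu S κ (κ s₀) (r s₀) : ℝ) := by
    have h2 : (bad S κ θ).card ≤ ∑ s₀ ∈ u', nu S κ (κ s₀) (3 * r s₀) :=
      (Finset.card_le_card hcover).trans Finset.card_biUnion_le
    have h3 : ((bad S κ θ).card : ℝ) ≤ ∑ s₀ ∈ u', (nu S κ (κ s₀) (3 * r s₀) : ℝ) := by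
      exact_mod_cast h2
    refine h3.trans (Finset.sum_le_sum ?_)
    intro s₀ hs₀
    have hs₀' := (Finset.mem_filter.mp hs₀).1
    have h4 := hr4 s₀ hs₀' (3 * r s₀) (by have := hr1 s₀ hs₀'; omega)
    have h5 := hr2 s₀ hs₀'
    push_cast at h4
    linarith
  have h2 : ∀ s₀ ∈ u', (nu S κ (κ s₀) (r s₀) : ℝ) ≤ 3 / θ *
      (∑ s ∈ (range S).filter (fun s => |κ s - κ s₀| ≤ (r s₀ : ℤ)), (cell S κ s : ℝ)) := by
    intro s₀ hs₀
    have hs₀' := (Finset.mem_filter.mp hs₀).1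
    have h3 := nu_sq_le S κ (κ s₀) (r s₀)
    have h4 : ((nu S κ (κ s₀) (r s₀) : ℝ)) ^ 2 ≤ (2 * r s₀ + 1) *
      ∑ s ∈ (range S).filter (fun s => |κ s - κ s₀| ≤ (r s₀ : ℤ)), (cell S κ s : ℝ) := by
      exact_mod_cast h3
    have h5 := hr2 s₀ hs₀'
    have h6 : (1 : ℝ) ≤ r s₀ := by exact_mod_cast hr1 s₀ hs₀'
    set ν : ℝ := (nu S κ (κ s₀) (r s₀) : ℝ)
    set C : ℝ := ∑ s ∈ (range S).filter (fun s => |κ s - κ s₀| ≤ (r s₀ : ℤ)), (cell S κ s : ℝ)
    have hC : 0 ≤ C := Finset.sum_nonneg fun _ _ => by positivity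
    have h7 : θ * r s₀ * ν ≤ 3 * r s₀ * C := by
      calc θ * r s₀ * ν ≤ ν * ν := by
            apply mul_le_mul_of_nonneg_right h5.le
            linarith [mul_pos hθ (by linarith : (0 : ℝ) < r s₀)]
        _ = ν ^ 2 := by ring
        _ ≤ (2 * r s₀ + 1) * C := h4
        _ ≤ 3 * r s₀ * C := mul_le_mul_of_nonneg_right (by linarith) hC
    have h8 : θ * ν ≤ 3 * C := by
      have h9 : (r s₀ : ℝ) * (θ * ν) ≤ r s₀ * (3 * C) := by linarith
      exact le_of_mul_le_mul_left h9 (by linarith)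
    rw [div_mul_eq_mul_div, le_div_iff₀ hθ]
    linarith
  have h3 : ∑ s₀ ∈ u', (∑ s ∈ (range S).filter (fun s => |κ s - κ s₀| ≤ (r s₀ : ℤ)),
      (cell S κ s : ℝ)) ≤ energy S κ := by
    rw [← Finset.sum_biUnion]
    · unfold energy
      push_cast
      apply Finset.sum_le_sum_of_subset_of_nonneg
      · intro s hs
        rw [Finset.mem_biUnion] at hs
        obtain ⟨_, _, h⟩ := hs
        exact (Finset.mem_filter.mp h).1
      · intros; positivity
    · intro a ha b hb hab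
      have ha' : a ∈ u := (Finset.mem_filter.mp ha).2
      have hb' : b ∈ u := (Finset.mem_filter.mp hb).2
      have hd := hdisj ha' hb' hab
      rw [Function.onFun, Finset.disjoint_left]
      intro s hsa hsb
      rw [Finset.mem_filter, abs_le] at hsa hsb
      rw [Function.onFun, Set.disjoint_left] at hd
      apply hd (a := κ s)
      · rw [Set.mem_Icc]; omega
      · rw [Set.mem_Icc]; omega
  calc ((bad S κ θ).card : ℝ) ≤ ∑ s₀ ∈ u', 3 * (nu S κ (κ s₀) (r s₀) : ℝ) := h1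
    _ ≤ ∑ s₀ ∈ u', 3 * (3 / θ * (∑ s ∈ (range S).filter (fun s => |κ s - κ s₀| ≤ (r s₀ : ℤ)),
        (cell S κ s : ℝ))) := by
        apply Finset.sum_le_sum
        intro s₀ hs₀
        have := h2 s₀ hs₀
        linarith
    _ = 9 / θ * ∑ s₀ ∈ u', (∑ s ∈ (range S).filter (fun s => |κ s - κ s₀| ≤ (r s₀ : ℤ)),
        (cell S κ s : ℝ)) := by
        rw [Finset.mul_sum]
        apply Finset.sum_congr rfl
        intro s₀ _
        ring
    _ ≤ 9 / θ * energy S κ := mul_le_mul_of_nonneg_left h3 (by positivity)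
    _ = 9 * energy S κ / θ := by ring

end Pool.Agent.Lib.MP_70146a_co
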