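import Mathlib
import Pool.Agent.Lib.MP_70146a_co.Cover

/-!
Averaging over the slope.
-/

namespace Pool.Agent.Lib.MP_70146a_co

open Finset

/-- The scaled position of the `s`-th candidate for the slope parameter `a`. -/
def UU (T D : ℕ) (β : ℕ → ℤ) (a s : ℕ) : ℤ := ((T : ℤ) + a) * D * s + 4 * T * β s

/-- The cell of the `s`-th candidate. -/
def kap (T D : ℕ) (β : ℕ → ℤ) (a s : ℕ) : ℤ := UU T D β a s / (4 * T * D)

lemma abs_sub_lt_of_ediv_eq {x y c : ℤ} (hc : 0 < c) (h : x / c = y / c) : |x - y| < c := by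
  have h1 := Int.mul_ediv_add_emod x c
  have h2 := Int.mul_ediv_add_emod y c
  have h3 := Int.emod_nonneg x hc.ne'
  have h4 := Int.emod_lt_of_pos x hc
  have h5 := Int.emod_nonneg y hc.ne'
  have h6 := Int.emod_lt_of_pos y hc
  rw [h] at h1
  rw [abs_lt]
  constructor <;> linarith

lemma abs_ediv_sub_le {x y c : ℤ} (hc : 0 < c) (g : ℤ) (h : |x - y| ≤ c * g) :
    |x / c - y / c| ≤ g := by
  rw [abs_le] at h ⊢
  constructor
  · have h1 : y ≤ x + c * g := by linarith
    have h2 : y / c ≤ (x + c * g) / c := Int.ediv_le_ediv hc h1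
    rw [Int.add_mul_ediv_left _ _ hc.ne'] at h2
    linarith
  · have h1 : x ≤ y + c * g := by linarith
    have h2 : x / c ≤ (y + c * g) / c := Int.ediv_le_ediv hc h1
    rw [Int.add_mul_ediv_left _ _ hc.ne'] at h2
    linarith

lemma count_slopes (T D : ℕ) (hT : 0 < T) (hD : 0 < D) (β : ℕ → ℤ) (s s' : ℕ) (hss : s' < s)
    (hd : s - s' ≤ T) :
    ((((range T).filter fun a => kap T D β a s' = kap T D β a s).card : ℕ) : ℝ)
      ≤ 9 * T / ((s : ℝ) - s') := by
  set W := (range T).filter fun a => kap T D β a s' = kap T D β a s with hW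
  obtain ⟨d, hdd⟩ : ∃ d, d = s - s' := ⟨_, rfl⟩
  have hd0 : 0 < d := by omega
  have hs : s = s' + d := by omega
  have hsr : (s : ℝ) - s' = d := by rw [hs]; push_cast; ring
  rw [hsr]
  have hdr : (0 : ℝ) < d := by exact_mod_cast hd0
  have hdT : (d : ℝ) ≤ T := by exact_mod_cast (hdd ▸ hd)
  rcases W.eq_empty_or_nonempty with h0 | hne
  · rw [h0]; simp; positivity
  · set a₀ := W.min' hne with ha₀
    have ha₀W : a₀ ∈ W := Finset.min'_mem _ _
    have hc : (0 : ℤ) < 4 * T * D := by positivity
    have key : ∀ a ∈ W, a₀ ≤ a ∧ (a - a₀) * d < 8 * T := by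
      intro a ha
      have hle : a₀ ≤ a := Finset.min'_le _ _ ha
      refine ⟨hle, ?_⟩
      have h1 := abs_sub_lt_of_ediv_eq hc (Finset.mem_filter.mp ha).2
      have h2 := abs_sub_lt_of_ediv_eq hc (Finset.mem_filter.mp ha₀W).2
      rw [abs_lt] at h1 h2
      unfold UU at h1 h2
      obtain ⟨e, rfl⟩ := Nat.exists_eq_add_of_le hle
      rw [hs] at h1 h2
      have h3 : (D : ℤ) * (e * d) < D * (8 * T) := by
        push_cast at h1 h2 ⊢
        nlinarith [h1.1, h1.2, h2.1, h2.2]
      have h4 : (e : ℤ) * d < 8 * T := lt_of_mul_lt_mul_left h3 (by positivity)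
      rw [Nat.add_sub_cancel_left]
      exact_mod_cast h4
    have hsub : W ⊆ Finset.Icc a₀ (a₀ + 8 * T / d) := by
      intro a ha
      obtain ⟨h1, h2⟩ := key a ha
      rw [Finset.mem_Icc]
      refine ⟨h1, ?_⟩
      have h3 : a - a₀ ≤ 8 * T / d := by
        rw [Nat.le_div_iff_mul_le hd0]; exact h2.le
      omega
    have hcard : W.card ≤ 8 * T / d + 1 := by
      refine (Finset.card_le_card hsub).trans ?_
      rw [Nat.card_Icc, add_assoc, Nat.add_sub_cancel_left]
    have h1 : (W.card : ℝ) ≤ ((8 * T / d : ℕ) : ℝ) + 1 := by exact_mod_cast hcard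
    have h2 : ((8 * T / d : ℕ) : ℝ) ≤ (8 * T : ℝ) / d := by
      have := @Nat.cast_div_le ℝ _ _ _ (8 * T) d
      push_cast at this
      exact this
    have h3 : (1 : ℝ) ≤ T / d := by rw [le_div_iff₀ hdr]; linarith
    calc (W.card : ℝ) ≤ ((8 * T / d : ℕ) : ℝ) + 1 := h1
      _ ≤ (8 * T : ℝ) / d + T / d := by linarith
      _ = 9 * T / d := by ring

lemma sum_inv_le (m S : ℕ) (hm : m ≤ S) :
    ∑ x ∈ range m, (1 : ℝ) / ((x : ℝ) + 1) ≤ 1 + Real.log S := by
  calc ∑ x ∈ range m, (1 : ℝ) / ((x : ℝ) + 1) ≤ ∑ x ∈ range S, (1 : ℝ) / ((x : ℝ) + 1) := by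
        apply Finset.sum_le_sum_of_subset_of_nonneg
        · intro x hx; rw [mem_range] at *; omega
        · intros; positivity
    _ = (harmonic S : ℝ) := by
        unfold harmonic
        push_cast
        simp only [one_div]
    _ ≤ 1 + Real.log S := harmonic_le_one_add_log S

theorem exists_slope (S D : ℕ) (hS : 0 < S) (hD : 0 < D) (β : ℕ → ℤ) :
    ∃ a < S, (energy S (kap S D β a) : ℝ) ≤ S * (19 + 18 * Real.log S) := by
  have hS0 : (0 : ℝ) < S := by exact_mod_cast hS
  -- pair counts
  let c : ℕ → ℕ → ℝ := fun s s' =>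
    (((range S).filter fun a => kap S D β a s' = kap S D β a s).card : ℝ)
  have hsymm : ∀ s s', c s s' = c s' s := by
    intro s s'
    show ((((range S).filter fun a => kap S D β a s' = kap S D β a s).card : ℕ) : ℝ) =
      ((((range S).filter fun a => kap S D β a s = kap S D β a s').card : ℕ) : ℝ)
    congr 2
    ext a
    simp only [Finset.mem_filter]
    constructor <;> rintro ⟨h1, h2⟩ <;> exact ⟨h1, h2.symm⟩
  have htotal : ∑ a ∈ range S, (energy S (kap S D β a) : ℝ)
      = ∑ s ∈ range S, ∑ s' ∈ range S, c s s' := by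
    unfold energy cell
    push_cast
    rw [Finset.sum_comm]
    apply Finset.sum_congr rfl
    intro s _
    have h1 : ∀ a, ((((range S).filter fun s' => kap S D β a s' = kap S D β a s).card : ℕ) : ℝ)
        = ∑ s' ∈ range S, if kap S D β a s' = kap S D β a s then (1 : ℝ) else 0 := by
      intro a
      rw [Finset.card_filter]
      push_cast
      rfl
    have h2 : ∀ s', c s s'
        = ∑ a ∈ range S, if kap S D β a s' = kap S D β a s then (1 : ℝ) else 0 := by
      intro s'
      show ((((range S).filter fun a => kap S D β a s' = kap S D β a s).card : ℕ) : ℝ) = _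
      rw [Finset.card_filter]
      push_cast
      rfl
    simp only [h1, h2]
    rw [Finset.sum_comm]
  have hrow : ∀ s ∈ range S, ∑ s' ∈ range S, c s s' ≤ S * (19 + 18 * Real.log S) := by
    intro s hs
    rw [mem_range] at hs
    obtain ⟨m, hm⟩ : ∃ m, S = s + 1 + m := ⟨S - (s + 1), by omega⟩
    have hsplit : ∑ s' ∈ range S, c s s'
        = ∑ s' ∈ range s, c s s' + c s s + ∑ x ∈ range m, c s (s + 1 + x) := by
      have e : ∑ s' ∈ range S, c s s' = ∑ s' ∈ range (s + 1 + m), c s s' := by rw [← hm]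
      rw [e, Finset.sum_range_add, Finset.sum_range_succ]
    rw [hsplit]
    have h1 : ∑ s' ∈ range s, c s s' ≤ 9 * S * (1 + Real.log S) := by
      calc ∑ s' ∈ range s, c s s' ≤ ∑ s' ∈ range s, 9 * S * (1 / (((s - 1 - s' : ℕ) : ℝ) + 1)) := by
            apply Finset.sum_le_sum
            intro s' hs'
            rw [mem_range] at hs'
            have h2 := count_slopes S D hS hD β s s' hs' (by omega)
            have h3 : ((s - 1 - s' : ℕ) : ℝ) + 1 = (s : ℝ) - s' := by
              have : (s - 1 - s') + 1 + s' = s := by omega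
              have : (((s - 1 - s' : ℕ) : ℝ) + 1 + s') = s := by exact_mod_cast this
              linarith
            rw [h3]
            calc c s s' ≤ 9 * S / ((s : ℝ) - s') := h2
              _ = 9 * S * (1 / ((s : ℝ) - s')) := by ring
        _ = ∑ x ∈ range s, 9 * S * (1 / ((x : ℝ) + 1)) := by
            rw [← Finset.sum_range_reflect (fun x => 9 * (S : ℝ) * (1 / ((x : ℝ) + 1))) s]
        _ = 9 * S * ∑ x ∈ range s, (1 : ℝ) / ((x : ℝ) + 1) := by rw [Finset.mul_sum]
        _ ≤ 9 * S * (1 + Real.log S) :=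
            mul_le_mul_of_nonneg_left (sum_inv_le s S hs.le) (by positivity)
    have h2 : c s s ≤ S := by
      show ((((range S).filter fun a => kap S D β a s = kap S D β a s).card : ℕ) : ℝ) ≤ S
      have : ((range S).filter fun a => kap S D β a s = kap S D β a s).card ≤ S :=
        (Finset.card_filter_le _ _).trans (by rw [card_range])
      exact_mod_cast this
    have h3 : ∑ x ∈ range m, c s (s + 1 + x) ≤ 9 * S * (1 + Real.log S) := by
      calc ∑ x ∈ range m, c s (s + 1 + x) ≤ ∑ x ∈ range m, 9 * S * (1 / ((x : ℝ) + 1)) := by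
            apply Finset.sum_le_sum
            intro x hx
            rw [mem_range] at hx
            have h4 := count_slopes S D hS hD β (s + 1 + x) s (by omega) (by omega)
            rw [hsymm]
            have h5 : (((s + 1 + x : ℕ) : ℝ) - s) = (x : ℝ) + 1 := by push_cast; ring
            rw [h5] at h4
            calc c (s + 1 + x) s ≤ 9 * S / ((x : ℝ) + 1) := h4
              _ = 9 * S * (1 / ((x : ℝ) + 1)) := by ring
        _ = 9 * S * ∑ x ∈ range m, (1 : ℝ) / ((x : ℝ) + 1) := by rw [Finset.mul_sum]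
        _ ≤ 9 * S * (1 + Real.log S) :=
            mul_le_mul_of_nonneg_left (sum_inv_le m S (by omega)) (by positivity)
    linarith
  by_contra hcon
  push Not at hcon
  have h1 : ∑ a ∈ range S, (S * (19 + 18 * Real.log S))
      < ∑ a ∈ range S, (energy S (kap S D β a) : ℝ) := by
    apply Finset.sum_lt_sum_of_nonempty ⟨0, mem_range.mpr hS⟩
    intro a ha
    exact hcon a (mem_range.mp ha)
  rw [htotal] at h1
  have h2 := Finset.sum_le_sum hrow
  linarith

end Pool.Agent.Lib.MP_70146a_co
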