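import Mathlib
import Pool.Agent.Lib.MP_70146a_co.Average

/-!
The combinatorial lower bound: a long zigzag path with pairwise distinct weights.
-/

namespace Pool.Agent.Lib.MP_70146a_co

open Finset

lemma greedy (g : ℕ → ℕ) (A : ℕ → Finset ℕ) (conf : ℕ → ℕ → ℕ → ℕ → Prop)
    (hsymm : ∀ k i k' i', conf k i k' i' → conf k' i' k i) (s : Finset ℕ)
    (hcount : ∀ k ∈ s, ∀ t ⊆ s, (∀ k' ∈ t, g k' ≤ g k) → k ∉ t → ∀ φ : ℕ → ℕ,
      (∀ k' ∈ t, φ k' ∈ A k') → ∃ i ∈ A k, ∀ k' ∈ t, ¬ conf k i k' (φ k')) :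
    ∃ φ : ℕ → ℕ, (∀ k ∈ s, φ k ∈ A k) ∧
      ∀ k ∈ s, ∀ k' ∈ s, k ≠ k' → ¬ conf k (φ k) k' (φ k') := by
  suffices h : ∀ t : Finset ℕ, t ⊆ s → ∃ φ : ℕ → ℕ, (∀ k ∈ t, φ k ∈ A k) ∧
      ∀ k ∈ t, ∀ k' ∈ t, k ≠ k' → ¬ conf k (φ k) k' (φ k') from h s (Finset.Subset.refl _)
  intro t
  induction t using Finset.induction_on_max_value g with
  | empty => intro _; exact ⟨fun _ => 0, by simp, by simp⟩
  | insert a t hat hmax ih =>
    intro hsub
    obtain ⟨φ, hφ1, hφ2⟩ := ih (fun x hx => hsub (Finset.mem_insert_of_mem hx))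
    obtain ⟨i, hi, hi2⟩ := hcount a (hsub (Finset.mem_insert_self _ _)) t
      (fun x hx => hsub (Finset.mem_insert_of_mem hx)) hmax hat φ hφ1
    refine ⟨fun k => if k = a then i else φ k, ?_, ?_⟩
    · intro k hk
      simp only
      split_ifs with h
      · rw [h]; exact hi
      · rcases Finset.mem_insert.mp hk with h' | h'
        · exact absurd h' h
        · exact hφ1 k h'
    · intro k hk k' hk' hne
      simp only
      rcases Finset.mem_insert.mp hk with h | h <;> rcases Finset.mem_insert.mp hk' with h' | h'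
      · exact absurd (h.trans h'.symm) hne
      · have hk'a : k' ≠ a := fun h'' => hat (h'' ▸ h')
        rw [if_pos h, if_neg hk'a, h]
        exact hi2 k' h'
      · have hka : k ≠ a := fun h'' => hat (h'' ▸ h)
        rw [if_neg hka, if_pos h', h']
        intro hc
        exact hi2 k h (hsymm _ _ _ _ hc)
      · have hka : k ≠ a := fun h'' => hat (h'' ▸ h)
        have hk'a : k' ≠ a := fun h'' => hat (h'' ▸ h')
        rw [if_neg hka, if_neg hk'a]
        exact hφ2 k h k' h' hne

lemma forb_card (S : ℕ) (κ β : ℕ → ℤ) (x g : ℕ) (t : Finset ℕ) (φ Pt : ℕ → ℕ)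
    (hinj : ∀ k ∈ t, ∀ k' ∈ t, Pt k = Pt k' → k = k') (hPt : ∀ k ∈ t, Pt k < S) (A : Finset ℕ)
    (hclose : ∀ i ∈ A, ∀ k' ∈ t, (i : ℤ) + β x = φ k' + β (Pt k') →
      |κ (Pt k') - κ x| ≤ (g : ℤ)) (F : Finset ℕ) (hFA : F ⊆ A)
    (hF : ∀ i ∈ F, ∃ k' ∈ t, (i : ℤ) + β x = φ k' + β (Pt k')) :
    F.card ≤ nu S κ (κ x) g := by
  classical
  choose! k hk1 hk2 using hF
  unfold nu
  apply Finset.card_le_card_of_injOn (fun i => Pt (k i))
  · intro i hi
    rw [Finset.mem_coe, Finset.mem_filter, mem_range]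
    exact ⟨hPt _ (hk1 i hi), hclose i (hFA hi) _ (hk1 i hi) (hk2 i hi)⟩
  · intro i hi i' hi' heq
    have h1 := hinj _ (hk1 i hi) _ (hk1 i' hi') heq
    have h2 := hk2 i hi
    have h3 := hk2 i' hi'
    rw [h1] at h2
    have : (i : ℤ) = i' := by linarith
    exact_mod_cast this

lemma exists_enum (G : Finset ℕ) : ∃ e : ℕ → ℕ, (∀ k, k < G.card → e k ∈ G) ∧
    ∀ k l, k < l → l < G.card → e k < e l := by
  refine ⟨fun k => if h : k < G.card then G.orderEmbOfFin rfl ⟨k, h⟩ else 0, ?_, ?_⟩
  · intro k hk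
    simp only [hk, dif_pos]
    exact Finset.orderEmbOfFin_mem _ _ _
  · intro k l hkl hl
    have hk : k < G.card := hkl.trans hl
    simp only [hk, hl, dif_pos]
    exact (G.orderEmbOfFin rfl).strictMono hkl

/-- Combinatorial core with explicit parameters. -/
theorem zigzag (n D S : ℕ) (hD : 64 ≤ D) (hS : 0 < S) (hDS : D * S ≤ n)
    (hDlog : 1152 * (19 + 18 * Real.log S) ≤ D) (b : ℕ → ℤ)
    (hb : ∀ x x', x < n → x' < n → b x = b x' → x = x') :
    ∃ (m : ℕ) (j i : ℕ → ℕ), (S : ℝ) ≤ 2 * m + 2 ∧ (∀ k l, k < l → l ≤ m → j k < j l) ∧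
      (∀ k ≤ m, j k < n) ∧ (∀ k l, k < l → l < m → i k < i l) ∧ (∀ k < m, 2 * i k < n) ∧
      (∀ k < m, ∀ l < m, ∀ x, (x = j k ∨ x = j (k + 1)) → ∀ y, (y = j l ∨ y = j (l + 1)) →
        (i k : ℤ) + b x = i l + b y → k = l ∧ x = y) := by
  classical
  have hD0 : 0 < D := by omega
  set β : ℕ → ℤ := fun s => b (D * s) with hβ
  obtain ⟨a, ha, hE⟩ := exists_slope S D hS hD0 β
  set κ := kap S D β a with hκ
  set θ : ℝ := D / 64 with hθ
  have hD0r : (0 : ℝ) < D := by exact_mod_cast hD0
  have hθ0 : 0 < θ := by rw [hθ]; positivity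
  have hS0 : (0 : ℝ) < S := by exact_mod_cast hS
  have hbad := card_bad_le S κ θ hθ0
  have hbad2 : ((bad S κ θ).card : ℝ) ≤ S / 2 := by
    refine hbad.trans ?_
    rw [hθ, div_le_div_iff₀ (by positivity) (by norm_num)]
    have h1 : 9 * (energy S κ : ℝ) * 2 ≤ 9 * (S * (19 + 18 * Real.log S)) * 2 := by linarith
    have h2 : (S : ℝ) * (1152 * (19 + 18 * Real.log S)) ≤ S * D :=
      mul_le_mul_of_nonneg_left hDlog hS0.le
    linarith
  set G := (range S) \ (bad S κ θ) with hG
  have hbadsub : bad S κ θ ⊆ range S := fun s hs => mem_range.mpr ((mem_bad _ _ _ _).mp hs).1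
  have hGcard : (S : ℝ) / 2 ≤ G.card := by
    have h1 : G.card + (bad S κ θ).card = S := by
      rw [hG, Finset.card_sdiff_of_subset hbadsub, card_range]
      have := Finset.card_le_card hbadsub
      rw [card_range] at this
      omega
    have h2 : (G.card : ℝ) + (bad S κ θ).card = S := by exact_mod_cast h1
    linarith
  have hGpos : 0 < G.card := by
    have : (0 : ℝ) < G.card := by linarith
    exact_mod_cast this
  obtain ⟨e, he1, he2⟩ := exists_enum G
  obtain ⟨m, hm⟩ : ∃ m, G.card = m + 1 := ⟨G.card - 1, by omega⟩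
  rw [hm] at he1 he2
  have heS : ∀ k ≤ m, e k < S := by
    intro k hk
    have h1 := he1 k (by omega)
    rw [hG, Finset.mem_sdiff, mem_range] at h1
    exact h1.1
  have hgood : ∀ k ≤ m, ∀ g : ℕ, 1 ≤ g → (nu S κ (κ (e k)) g : ℝ) ≤ θ * g := by
    intro k hk g hg
    have h1 := he1 k (by omega)
    rw [hG, Finset.mem_sdiff, mem_range, mem_bad] at h1
    by_contra hcon
    push Not at hcon
    exact h1.2 ⟨h1.1, g, hg, hcon⟩
  have heinj : ∀ k ≤ m, ∀ l ≤ m, e k = e l → k = l := by
    intro k hk l hl hkl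
    rcases lt_trichotomy k l with h | h | h
    · have := he2 k l h (by omega); omega
    · exact h
    · have := he2 l k h (by omega); omega
  -- candidates
  let A : ℕ → Finset ℕ := fun k => (range n).filter fun i =>
    (S + a) * D * e k ≤ 4 * S * i ∧ 4 * S * i < (S + a) * D * e (k + 1)
  let g : ℕ → ℕ := fun k => e (k + 1) - e k
  let conf : ℕ → ℕ → ℕ → ℕ → Prop := fun k i k' i' =>
    ∃ x, (x = e k ∨ x = e (k + 1)) ∧ ∃ y, (y = e k' ∨ y = e (k' + 1)) ∧
      (i : ℤ) + β x = i' + β y
  have hsymm : ∀ k i k' i', conf k i k' i' → conf k' i' k i := by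
    rintro k i k' i' ⟨x, hx, y, hy, h⟩
    exact ⟨y, hy, x, hx, h.symm⟩
  have hc : (0 : ℤ) < 4 * S * D := by positivity
  -- weights are close to the positions
  have hnear : ∀ k < m, ∀ i ∈ A k, ∀ x, (x = e k ∨ x = e (k + 1)) →
      |4 * (S : ℤ) * (i + β x) - UU S D β a x| ≤ 2 * S * D * g k := by
    intro k hk i hi x hx
    have hi' := (Finset.mem_filter.mp hi).2
    have hlt : e k < e (k + 1) := he2 k (k + 1) (by omega) (by omega)
    obtain ⟨d, hd⟩ := Nat.exists_eq_add_of_lt hlt
    have hgk : g k = d + 1 := by show e (k + 1) - e k = d + 1; omega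
    rw [hgk]
    have h1 : ((S : ℤ) + a) * D * e k ≤ 4 * S * i := by exact_mod_cast hi'.1
    have h2 : 4 * (S : ℤ) * i < (S + a) * D * e (k + 1) := by exact_mod_cast hi'.2
    have h3 : (e (k + 1) : ℤ) = e k + d + 1 := by rw [hd]; push_cast; ring
    have h4 : (a : ℤ) ≤ S := by exact_mod_cast ha.le
    have h5 : ((S : ℤ) + a) * D * (d + 1) ≤ 2 * S * D * (d + 1) := by
      have h6 : (0 : ℤ) ≤ D * (d + 1) := by positivity
      nlinarith
    rw [h3] at h2
    unfold UU
    have e1 : ((S : ℤ) + a) * D * (e k + d + 1) = (S + a) * D * e k + (S + a) * D * (d + 1) := by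
      ring
    rw [e1] at h2
    push_cast
    rcases hx with rfl | rfl
    · rw [abs_le]; constructor <;> linarith
    · rw [h3, abs_le]
      have e2 : ((S : ℤ) + a) * D * (e k + d + 1) = (S + a) * D * e k + (S + a) * D * (d + 1) := by
        ring
      rw [e2]
      constructor <;> linarith
  have hclose : ∀ k < m, ∀ k' < m, g k' ≤ g k → ∀ i ∈ A k, ∀ i' ∈ A k',
      ∀ x, (x = e k ∨ x = e (k + 1)) → ∀ y, (y = e k' ∨ y = e (k' + 1)) →
      (i : ℤ) + β x = i' + β y → |κ y - κ x| ≤ (g k : ℤ) := by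
    intro k hk k' hk' hgg i hi i' hi' x hx y hy heq
    have h1 := hnear k hk i hi x hx
    have h2 := hnear k' hk' i' hi' y hy
    rw [heq] at h1
    have h3 : (g k' : ℤ) ≤ g k := by exact_mod_cast hgg
    have h4 : 2 * (S : ℤ) * D * g k' ≤ 2 * S * D * g k :=
      mul_le_mul_of_nonneg_left h3 (by positivity)
    have h5 : |UU S D β a y - UU S D β a x| ≤ (4 * S * D) * g k := by
      rw [abs_le] at h1 h2 ⊢
      constructor <;> linarith
    exact abs_ediv_sub_le hc _ h5
  -- candidates are numerous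
  have hAcard : ∀ k < m, D * g k / 8 ≤ (A k).card := by
    intro k hk
    have hlt : e k < e (k + 1) := he2 k (k + 1) (by omega) (by omega)
    have h4S : 0 < 4 * S := by omega
    set X := (S + a) * D * e k with hX
    set i₀ := (X + (4 * S - 1)) / (4 * S) with hi₀
    have hi1 : X ≤ 4 * S * i₀ := by
      have h1 := Nat.div_add_mod (X + (4 * S - 1)) (4 * S)
      have h2 := Nat.mod_lt (X + (4 * S - 1)) h4S
      rw [← hi₀] at h1
      omega
    have hi2 : 4 * S * i₀ < X + 4 * S := by
      have h1 := Nat.div_add_mod (X + (4 * S - 1)) (4 * S)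
      rw [← hi₀] at h1
      omega
    have hsub : (range (D * g k / 8)).image (fun r => i₀ + r) ⊆ A k := by
      intro i hi
      rw [Finset.mem_image] at hi
      obtain ⟨r, hr, rfl⟩ := hi
      rw [mem_range, Nat.lt_div_iff_mul_lt (by norm_num)] at hr
      have hr' : 4 * (r + 1) ≤ D * g k := by omega
      have h1 : 4 * S * (i₀ + r) < (S + a) * D * e (k + 1) := by
        have h2 : 4 * S * (i₀ + r) < X + S * (4 * (r + 1)) := by
          have : 4 * S * (i₀ + r) = 4 * S * i₀ + 4 * S * r := by ring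
          have : S * (4 * (r + 1)) = 4 * S * r + 4 * S := by ring
          omega
        have h3 : S * (4 * (r + 1)) ≤ (S + a) * (D * g k) :=
          Nat.mul_le_mul (by omega) hr'
        have h4 : X + (S + a) * (D * g k) = (S + a) * D * e (k + 1) := by
          have : e (k + 1) = e k + g k := by
            show e (k + 1) = e k + (e (k + 1) - e k); omega
          rw [hX, this]; ring
        omega
      have h5 : i₀ + r < n := by
        have h6 : e (k + 1) < S := heS (k + 1) (by omega)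
        have h7 : 4 * S * (i₀ + r) < 4 * S * n := by
          calc 4 * S * (i₀ + r) < (S + a) * D * e (k + 1) := h1
            _ ≤ (S + S) * D * S := by
                apply Nat.mul_le_mul (Nat.mul_le_mul (by omega) le_rfl) h6.le
            _ = 2 * S * (D * S) := by ring
            _ ≤ 2 * S * n := Nat.mul_le_mul_left _ hDS
            _ ≤ 4 * S * n := Nat.mul_le_mul_right _ (by omega)
        exact Nat.lt_of_mul_lt_mul_left h7
      rw [Finset.mem_filter, mem_range]
      refine ⟨h5, ?_, h1⟩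
      calc (S + a) * D * e k ≤ 4 * S * i₀ := hi1
        _ ≤ 4 * S * (i₀ + r) := Nat.mul_le_mul_left _ (by omega)
    have h1 := Finset.card_le_card hsub
    rwa [Finset.card_image_of_injective _ (fun x y h => by simpa using h), card_range] at h1
  have hhalf : ∀ k < m, ∀ i ∈ A k, 2 * i < n := by
    intro k hk i hi
    have hi' := (Finset.mem_filter.mp hi).2.2
    have h6 : e (k + 1) < S := heS (k + 1) (by omega)
    have h7 : 2 * S * (2 * i) < 2 * S * n := by
      calc 2 * S * (2 * i) = 4 * S * i := by ring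
        _ < (S + a) * D * e (k + 1) := hi'
        _ ≤ (S + S) * D * S := by
            apply Nat.mul_le_mul (Nat.mul_le_mul (by omega) le_rfl) h6.le
        _ = 2 * S * (D * S) := by ring
        _ ≤ 2 * S * n := Nat.mul_le_mul_left _ hDS
    exact Nat.lt_of_mul_lt_mul_left h7
  obtain ⟨φ, hφ1, hφ2⟩ := greedy g A conf hsymm (range m) (by
    intro k hk t ht hgt hkt φ hφ
    rw [mem_range] at hk
    have htm : ∀ k' ∈ t, k' < m := fun k' hk' => mem_range.mp (ht hk')
    by_contra hcon
    push Not at hcon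
    -- all candidates are forbidden
    let F : ℕ → (ℕ → ℕ) → Finset ℕ := fun x Pt =>
      (A k).filter fun i => ∃ k' ∈ t, (i : ℤ) + β x = φ k' + β (Pt k')
    have hsub : A k ⊆ (F (e k) e ∪ F (e k) (fun k' => e (k' + 1))) ∪
        (F (e (k + 1)) e ∪ F (e (k + 1)) (fun k' => e (k' + 1))) := by
      intro i hi
      obtain ⟨k', hk', x, hx, y, hy, heq⟩ := hcon i hi
      rw [Finset.mem_union, Finset.mem_union, Finset.mem_union]
      rcases hx with rfl | rfl <;> rcases hy with rfl | rfl
      · left; left; exact Finset.mem_filter.mpr ⟨hi, k', hk', heq⟩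
      · left; right; exact Finset.mem_filter.mpr ⟨hi, k', hk', heq⟩
      · right; left; exact Finset.mem_filter.mpr ⟨hi, k', hk', heq⟩
      · right; right; exact Finset.mem_filter.mpr ⟨hi, k', hk', heq⟩
    have hlt : e k < e (k + 1) := he2 k (k + 1) (by omega) (by omega)
    have hg1 : 1 ≤ g k := by show 1 ≤ e (k + 1) - e k; omega
    have hF : ∀ x, (x = e k ∨ x = e (k + 1)) → (F x e).card ≤ nu S κ (κ x) (g k) := by
      intro x hx
      apply forb_card S κ β x (g k) t φ e _ _ (A k) _ _ (Finset.filter_subset _ _)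
      · intro i hi; exact (Finset.mem_filter.mp hi).2
      · intro k1 hk1 k2 hk2 h12
        exact heinj _ (htm _ hk1).le _ (htm _ hk2).le h12
      · intro k1 hk1; exact heS _ (htm _ hk1).le
      · intro i hi k' hk' heq
        exact hclose k hk k' (htm _ hk') (hgt _ hk') i hi (φ k') (hφ _ hk') x hx _ (Or.inl rfl) heq
    have hF' : ∀ x, (x = e k ∨ x = e (k + 1)) →
        (F x (fun k' => e (k' + 1))).card ≤ nu S κ (κ x) (g k) := by
      intro x hx
      apply forb_card S κ β x (g k) t φ (fun k' => e (k' + 1)) _ _ (A k) _ _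
        (Finset.filter_subset _ _)
      · intro i hi; exact (Finset.mem_filter.mp hi).2
      · intro k1 hk1 k2 hk2 h12
        have := heinj _ (htm _ hk1) _ (htm _ hk2) h12
        omega
      · intro k1 hk1; exact heS _ (htm _ hk1)
      · intro i hi k' hk' heq
        exact hclose k hk k' (htm _ hk') (hgt _ hk') i hi (φ k') (hφ _ hk') x hx _ (Or.inr rfl) heq
    have h1 : (A k).card ≤ (nu S κ (κ (e k)) (g k) + nu S κ (κ (e k)) (g k)) +
        (nu S κ (κ (e (k + 1))) (g k) + nu S κ (κ (e (k + 1))) (g k)) := by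
      refine (Finset.card_le_card hsub).trans ((Finset.card_union_le _ _).trans ?_)
      apply Nat.add_le_add
      · exact (Finset.card_union_le _ _).trans
          (Nat.add_le_add (hF _ (Or.inl rfl)) (hF' _ (Or.inl rfl)))
      · exact (Finset.card_union_le _ _).trans
          (Nat.add_le_add (hF _ (Or.inr rfl)) (hF' _ (Or.inr rfl)))
    have h2 : ((A k).card : ℝ) ≤ 4 * (θ * g k) := by
      have h3 := hgood k hk.le (g k) hg1
      have h4 := hgood (k + 1) hk (g k) hg1
      have h5 : ((A k).card : ℝ) ≤ (nu S κ (κ (e k)) (g k) + nu S κ (κ (e k)) (g k)) +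
        (nu S κ (κ (e (k + 1))) (g k) + nu S κ (κ (e (k + 1))) (g k)) := by exact_mod_cast h1
      linarith
    have h3 := hAcard k hk
    have h4 : ((D * g k / 8 : ℕ) : ℝ) ≤ 4 * (θ * g k) :=
      le_trans (by exact_mod_cast h3) h2
    have h5 : (D : ℝ) * g k < 8 * (((D * g k / 8 : ℕ) : ℝ) + 1) := by
      have h6 : D * g k < 8 * (D * g k / 8 + 1) := by omega
      exact_mod_cast h6
    rw [hθ] at h4
    have h6 : (64 : ℝ) ≤ D * g k := by
      have h7 : 64 * 1 ≤ D * g k := Nat.mul_le_mul hD hg1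
      have h8 : ((64 * 1 : ℕ) : ℝ) ≤ ((D * g k : ℕ) : ℝ) := by exact_mod_cast h7
      push_cast at h8
      linarith
    linarith)
  -- the rows are increasing
  have hrows : ∀ k l, k < l → l < m → φ k < φ l := by
    intro k l hkl hl
    have h1 := (Finset.mem_filter.mp (hφ1 k (mem_range.mpr (hkl.trans hl)))).2.2
    have h2 := (Finset.mem_filter.mp (hφ1 l (mem_range.mpr hl))).2.1
    have h3 : e (k + 1) ≤ e l := by
      rcases Nat.eq_or_lt_of_le (Nat.succ_le_of_lt hkl) with h | h
      · rw [← h]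
      · exact (he2 _ _ h (by omega)).le
    have h4 : 4 * S * φ k < 4 * S * φ l :=
      calc 4 * S * φ k < (S + a) * D * e (k + 1) := h1
        _ ≤ (S + a) * D * e l := Nat.mul_le_mul_left _ h3
        _ ≤ 4 * S * φ l := h2
    exact Nat.lt_of_mul_lt_mul_left h4
  refine ⟨m, fun k => D * e k, φ, ?_, ?_, ?_, hrows, ?_, ?_⟩
  · have : (G.card : ℝ) = m + 1 := by exact_mod_cast hm
    linarith
  · intro k l hkl hl
    exact Nat.mul_lt_mul_of_pos_left (he2 k l hkl (by omega)) hD0
  · intro k hk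
    calc D * e k < D * S := Nat.mul_lt_mul_of_pos_left (heS k hk) hD0
      _ ≤ n := hDS
  · intro k hk
    exact hhalf k hk _ (hφ1 k (mem_range.mpr hk))
  · intro k hk l hl x hx y hy heq
    have hex : ∃ x', (x' = e k ∨ x' = e (k + 1)) ∧ x = D * x' := by
      rcases hx with rfl | rfl
      · exact ⟨_, Or.inl rfl, rfl⟩
      · exact ⟨_, Or.inr rfl, rfl⟩
    have hey : ∃ y', (y' = e l ∨ y' = e (l + 1)) ∧ y = D * y' := by
      rcases hy with rfl | rfl
      · exact ⟨_, Or.inl rfl, rfl⟩
      · exact ⟨_, Or.inr rfl, rfl⟩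
    obtain ⟨x', hx', rfl⟩ := hex
    obtain ⟨y', hy', rfl⟩ := hey
    by_cases hkl : k = l
    · refine ⟨hkl, ?_⟩
      subst hkl
      have h1 : b (D * x') = b (D * y') := by linarith
      apply hb _ _ _ _ h1
      · have : x' < S := by
          rcases hx' with rfl | rfl
          · exact heS k hk.le
          · exact heS (k + 1) hk
        calc D * x' < D * S := Nat.mul_lt_mul_of_pos_left this hD0
          _ ≤ n := hDS
      · have : y' < S := by
          rcases hy' with rfl | rfl
          · exact heS k hk.le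
          · exact heS (k + 1) hk
        calc D * y' < D * S := Nat.mul_lt_mul_of_pos_left this hD0
          _ ≤ n := hDS
    · exfalso
      exact hφ2 k (mem_range.mpr hk) l (mem_range.mpr hl) hkl ⟨x', hx', y', hy', heq⟩

end Pool.Agent.Lib.MP_70146a_co
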