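import Mathlib

/-!
Digit-wise permutations of `{0, …, K ^ i - 1}`.
-/

namespace Pool.Agent.Lib.MP_70146a_co

/-- The digit-wise map: the `i`-th digit (from the top) in base `K` is replaced by its image
under `s i`. -/
def digitMap (K : ℕ) (s : ℕ → ℕ → ℕ) : ℕ → ℕ → ℕ
  | 0, _ => 0
  | i + 1, t => digitMap K s i (t / K) * K + s i (t % K)

lemma digitMap_lt {K : ℕ} (hK : 0 < K) {s : ℕ → ℕ → ℕ} (hs : ∀ i τ, τ < K → s i τ < K) (i : ℕ) :
    ∀ t, t < K ^ i → digitMap K s i t < K ^ i := by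
  induction i with
  | zero => intro t _; simp [digitMap]
  | succ i ih =>
    intro t ht
    simp only [digitMap]
    have h1 : t / K < K ^ i := by
      rw [Nat.div_lt_iff_lt_mul hK]; rwa [pow_succ] at ht
    have h2 := ih _ h1
    have h3 := hs i (t % K) (Nat.mod_lt _ hK)
    rw [pow_succ]
    calc digitMap K s i (t / K) * K + s i (t % K) < digitMap K s i (t / K) * K + K := by omega
      _ = (digitMap K s i (t / K) + 1) * K := by ring
      _ ≤ K ^ i * K := Nat.mul_le_mul_right _ h2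

lemma digitMap_div_one {K : ℕ} (hK : 0 < K) {s : ℕ → ℕ → ℕ} (hs : ∀ i τ, τ < K → s i τ < K)
    (i t : ℕ) : digitMap K s (i + 1) t / K = digitMap K s i (t / K) := by
  simp only [digitMap]
  have h3 := hs i (t % K) (Nat.mod_lt _ hK)
  rw [Nat.add_comm, Nat.add_mul_div_right _ _ hK, Nat.div_eq_of_lt h3, zero_add]

lemma digitMap_div {K : ℕ} (hK : 0 < K) {s : ℕ → ℕ → ℕ} (hs : ∀ i τ, τ < K → s i τ < K)
    (i m : ℕ) : ∀ t, digitMap K s (i + m) t / K ^ m = digitMap K s i (t / K ^ m) := by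
  induction m with
  | zero => intro t; simp
  | succ m ih =>
    intro t
    rw [← add_assoc, pow_succ, mul_comm (K ^ m) K, ← Nat.div_div_eq_div_mul,
      digitMap_div_one hK hs, ih, Nat.div_div_eq_div_mul]

lemma digitMap_injOn {K : ℕ} (hK : 0 < K) {s : ℕ → ℕ → ℕ} (hs : ∀ i τ, τ < K → s i τ < K)
    (hinj : ∀ i τ τ', τ < K → τ' < K → s i τ = s i τ' → τ = τ') (i : ℕ) :
    ∀ t t', t < K ^ i → t' < K ^ i → digitMap K s i t = digitMap K s i t' → t = t' := by
  induction i with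
  | zero => intro t t' ht ht' _; simp at ht ht'; omega
  | succ i ih =>
    intro t t' ht ht' h
    have h1 : t / K < K ^ i := by
      rw [Nat.div_lt_iff_lt_mul hK]; rwa [pow_succ] at ht
    have h1' : t' / K < K ^ i := by
      rw [Nat.div_lt_iff_lt_mul hK]; rwa [pow_succ] at ht'
    have h2 : digitMap K s i (t / K) = digitMap K s i (t' / K) := by
      rw [← digitMap_div_one hK hs, ← digitMap_div_one hK hs, h]
    have h3 := ih _ _ h1 h1' h2
    have h4 : s i (t % K) = s i (t' % K) := by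
      simp only [digitMap] at h
      rw [h2] at h
      omega
    have h5 := hinj i _ _ (Nat.mod_lt _ hK) (Nat.mod_lt _ hK) h4
    rw [← Nat.div_add_mod t K, ← Nat.div_add_mod t' K, h3, h5]

/-- The killer permutation of slope `p / q`. -/
lemma killer_exists {K : ℕ} (hK : K.Prime) {p q : ℕ} (hp : 1 ≤ p) (hpK : p < K) (hq : 1 ≤ q)
    (hqK : q < K) :
    ∃ σ : ℕ → ℕ, (∀ τ < K, σ τ < K) ∧ (∀ τ τ', τ < K → τ' < K → σ τ = σ τ' → τ = τ') ∧
      ∀ τ < K, K ∣ p * τ + q * σ τ := by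
  haveI : Fact K.Prime := ⟨hK⟩
  have hq0 : (q : ZMod K) ≠ 0 := by
    intro h
    rw [ZMod.natCast_eq_zero_iff] at h
    exact absurd (Nat.le_of_dvd hq h) (by omega)
  have hp0 : (p : ZMod K) ≠ 0 := by
    intro h
    rw [ZMod.natCast_eq_zero_iff] at h
    exact absurd (Nat.le_of_dvd hp h) (by omega)
  set c : ZMod K := -(p : ZMod K) * (q : ZMod K)⁻¹ with hc
  have hc0 : c ≠ 0 := by
    rw [hc]
    exact mul_ne_zero (neg_ne_zero.mpr hp0) (inv_ne_zero hq0)
  refine ⟨fun τ => (c * (τ : ZMod K)).val, fun τ _ => ZMod.val_lt _, ?_, ?_⟩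
  · intro τ τ' hτ hτ' h
    have h1 : c * (τ : ZMod K) = c * (τ' : ZMod K) := ZMod.val_injective K h
    have h2 : (τ : ZMod K) = (τ' : ZMod K) := mul_left_cancel₀ hc0 h1
    have h3 := congrArg ZMod.val h2
    rwa [ZMod.val_natCast_of_lt hτ, ZMod.val_natCast_of_lt hτ'] at h3
  · intro τ _
    rw [← ZMod.natCast_eq_zero_iff]
    push_cast
    rw [ZMod.natCast_zmod_val, hc]
    field_simp
    ring

end Pool.Agent.Lib.MP_70146a_co
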