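import Mathlib

/-!
Energy (concavity) estimates for the function `Φ a b = a b / (a + b)`.
-/

namespace Pool.Agent.Lib.MP_70146a_co

open Finset

/-- The concave, positively homogeneous function `Φ a b = a b / (a + b)`. -/
noncomputable def Phi (a b : ℝ) : ℝ := a * b / (a + b)

lemma Phi_nonneg {a b : ℝ} (ha : 0 ≤ a) (hb : 0 ≤ b) : 0 ≤ Phi a b := by
  unfold Phi; positivity

lemma Phi_le_left {a b : ℝ} (ha : 0 < a) (hb : 0 ≤ b) : Phi a b ≤ a := by
  unfold Phi
  rw [div_le_iff₀ (by positivity)]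
  nlinarith

lemma Phi_tangent {a : ℝ} (ha : 0 < a) {lam : ℝ} (hl : 0 ≤ lam) {r : ℝ} (hr : 0 ≤ r) :
    Phi a r = a * (lam / (1 + lam)) + (r - lam * a) / (1 + lam) ^ 2
      - (r - lam * a) ^ 2 / (a + r) / (1 + lam) ^ 2 := by
  unfold Phi
  have h1 : (a + r) ≠ 0 := by positivity
  have h2 : (1 + lam) ≠ 0 := by positivity
  field_simp
  ring

/-- Exact energy identity. -/
lemma energy_identity {ι : Type*} (s : Finset ι) (r : ι → ℝ) (hr : ∀ i ∈ s, 0 ≤ r i)
    {a : ℝ} (ha : 0 < a) {lam : ℝ} (hl : 0 ≤ lam) (hsum : ∑ i ∈ s, r i = lam * (s.card * a)) :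
    ∑ i ∈ s, Phi a (r i) = (s.card * a) * (lam / (1 + lam))
      - (∑ i ∈ s, (r i - lam * a) ^ 2 / (a + r i)) / (1 + lam) ^ 2 := by
  have h1 : ∀ i ∈ s, Phi a (r i) = a * (lam / (1 + lam)) + (r i - lam * a) / (1 + lam) ^ 2
      - (r i - lam * a) ^ 2 / (a + r i) / (1 + lam) ^ 2 := fun i hi =>
    Phi_tangent ha hl (hr i hi)
  rw [Finset.sum_congr rfl h1, Finset.sum_sub_distrib, Finset.sum_add_distrib,
    Finset.sum_div, Finset.sum_const, nsmul_eq_mul]
  have h2 : ∑ i ∈ s, (r i - lam * a) / (1 + lam) ^ 2 = 0 := by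
    rw [← Finset.sum_div, Finset.sum_sub_distrib, hsum, Finset.sum_const, nsmul_eq_mul]
    have : lam * (s.card * a) - s.card * (lam * a) = 0 := by ring
    rw [this]; simp
  rw [h2]
  ring

/-- Superadditivity. -/
lemma sum_Phi_le {ι : Type*} (s : Finset ι) (r : ι → ℝ) (hr : ∀ i ∈ s, 0 ≤ r i)
    {a : ℝ} (ha : 0 < a) (hs : s.Nonempty) :
    ∑ i ∈ s, Phi a (r i) ≤ Phi (s.card * a) (∑ i ∈ s, r i) := by
  have hc : (0 : ℝ) < s.card := by exact_mod_cast hs.card_pos
  have hR : 0 ≤ ∑ i ∈ s, r i := Finset.sum_nonneg hr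
  set R := ∑ i ∈ s, r i with hRdef
  have hl : 0 ≤ R / (s.card * a) := by positivity
  have h1 := energy_identity s r hr ha hl (by rw [← hRdef]; field_simp)
  have h2 : 0 ≤ (∑ i ∈ s, (r i - R / (s.card * a) * a) ^ 2 / (a + r i)) /
      (1 + R / (s.card * a)) ^ 2 := by
    apply div_nonneg _ (by positivity)
    exact Finset.sum_nonneg fun i hi => div_nonneg (by positivity) (by have := hr i hi; linarith)
  have h3 : (s.card * a) * ((R / (s.card * a)) / (1 + R / (s.card * a)))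
      = Phi (s.card * a) R := by
    unfold Phi
    field_simp
  rw [h1, h3]
  linarith

lemma Phi_eq {a lam : ℝ} (ha : 0 < a) (hl : 0 ≤ lam) :
    Phi a (lam * a) = a * (lam / (1 + lam)) := by
  unfold Phi
  have : (1 + lam) ≠ 0 := by positivity
  field_simp

/-- If the energy drop is small, then the total deviation is small. -/
lemma sum_dev_le {ι : Type*} (s : Finset ι) (r : ι → ℝ) (hr : ∀ i ∈ s, 0 ≤ r i)
    {a : ℝ} (ha : 0 < a) {lam : ℝ} (hl : 0 ≤ lam) (hsum : ∑ i ∈ s, r i = lam * (s.card * a))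
    {E : ℝ} (hE : Phi (s.card * a) (lam * (s.card * a)) - E ≤ ∑ i ∈ s, Phi a (r i))
    (hs : s.Nonempty) :
    (∑ i ∈ s, |r i - lam * a|) ^ 2 ≤ E * (1 + lam) ^ 3 * (s.card * a) := by
  have hc : (0 : ℝ) < s.card := by exact_mod_cast hs.card_pos
  have h1 := energy_identity s r hr ha hl hsum
  rw [Phi_eq (by positivity) hl] at hE
  set V := ∑ i ∈ s, (r i - lam * a) ^ 2 / (a + r i) with hV
  have h2 : V / (1 + lam) ^ 2 ≤ E := by linarith
  have h3 : V ≤ E * (1 + lam) ^ 2 := by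
    rwa [div_le_iff₀ (by positivity)] at h2
  have h4 : (∑ i ∈ s, |r i - lam * a|) ^ 2 ≤ V * ∑ i ∈ s, (a + r i) := by
    apply Finset.sum_sq_le_sum_mul_sum_of_sq_le_mul
    · intro i hi; exact div_nonneg (by positivity) (by have := hr i hi; linarith)
    · intro i hi; have := hr i hi; linarith
    · intro i hi
      have : (0 : ℝ) < a + r i := by have := hr i hi; linarith
      rw [sq_abs]
      apply le_of_eq
      field_simp
  have h5 : ∑ i ∈ s, (a + r i) = (1 + lam) * (s.card * a) := by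
    rw [Finset.sum_add_distrib, hsum, Finset.sum_const, nsmul_eq_mul]
    ring
  rw [h5] at h4
  calc (∑ i ∈ s, |r i - lam * a|) ^ 2 ≤ V * ((1 + lam) * (s.card * a)) := h4
    _ ≤ (E * (1 + lam) ^ 2) * ((1 + lam) * (s.card * a)) := by
        apply mul_le_mul_of_nonneg_right h3; positivity
    _ = E * (1 + lam) ^ 3 * (s.card * a) := by ring

end Pool.Agent.Lib.MP_70146a_co
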