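import Mathlib
import Pool.Agent.Lib.MP_70146a_co.Energy
import Pool.Agent.Lib.MP_70146a_co.Digits

/-!
The collapse estimate: near-straight sequences see few windows.
-/

namespace Pool.Agent.Lib.MP_70146a_co

open Finset

/-- The natural numbers in `[a, b]`. -/
noncomputable def natIcc (a b : ℝ) : Finset ℕ := Finset.Icc ⌈a⌉₊ ⌊b⌋₊

lemma mem_natIcc {a b : ℝ} {w : ℕ} (h1 : a ≤ w) (h2 : (w : ℝ) ≤ b) : w ∈ natIcc a b := by
  unfold natIcc
  rw [Finset.mem_Icc]
  exact ⟨Nat.ceil_le.mpr h1, Nat.le_floor h2⟩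

lemma card_natIcc_le {a b : ℝ} (hab : a ≤ b) : ((natIcc a b).card : ℝ) ≤ b - a + 1 := by
  unfold natIcc
  rw [Nat.card_Icc]
  rcases lt_or_ge b 0 with hb | hb
  · rw [Nat.floor_of_nonpos hb.le]
    have : ((0 + 1 - ⌈a⌉₊ : ℕ) : ℝ) ≤ 1 := by
      exact_mod_cast (by omega : 0 + 1 - ⌈a⌉₊ ≤ 1)
    linarith
  · rcases le_or_gt ⌈a⌉₊ (⌊b⌋₊ + 1) with h | h
    · rw [Nat.cast_sub h]
      push_cast
      have h1 := Nat.floor_le hb
      have h2 := Nat.le_ceil a
      linarith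
    · rw [Nat.sub_eq_zero_of_le h.le]
      simp; linarith

lemma card_biUnion_natIcc_le {ι : Type*} [DecidableEq ι] (s : Finset ι) (a b : ι → ℝ)
    (hab : ∀ i ∈ s, a i ≤ b i) :
    ((s.biUnion fun i => natIcc (a i) (b i)).card : ℝ) ≤ ∑ i ∈ s, (b i - a i + 1) := by
  calc ((s.biUnion fun i => natIcc (a i) (b i)).card : ℝ)
      ≤ ((∑ i ∈ s, (natIcc (a i) (b i)).card : ℕ) : ℝ) := by
        exact_mod_cast Finset.card_biUnion_le
    _ = ∑ i ∈ s, ((natIcc (a i) (b i)).card : ℝ) := by push_cast; rfl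
    _ ≤ ∑ i ∈ s, (b i - a i + 1) := Finset.sum_le_sum fun i hi => card_natIcc_le (hab i hi)

/-- Deviation from the straight line inside a group of `K` consecutive steps. -/
lemma abs_sub_line_le (Z : ℕ → ℕ) (c : ℝ) (s K τ : ℕ) (hτ : τ ≤ K) :
    |(Z (s + τ) : ℝ) - Z s - τ * c| ≤ ∑ x ∈ range K, |(Z (s + x + 1) : ℝ) - Z (s + x) - c| := by
  have h1 : (Z (s + τ) : ℝ) - Z s - τ * c
      = ∑ x ∈ range τ, ((Z (s + x + 1) : ℝ) - Z (s + x) - c) := by
    rw [Finset.sum_sub_distrib, Finset.sum_const, card_range, nsmul_eq_mul]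
    have := Finset.sum_range_sub (fun x => (Z (s + x) : ℝ)) τ
    simp only [add_zero] at this
    rw [← this]
    simp only [add_assoc]
  rw [h1]
  calc |∑ x ∈ range τ, ((Z (s + x + 1) : ℝ) - Z (s + x) - c)|
      ≤ ∑ x ∈ range τ, |(Z (s + x + 1) : ℝ) - Z (s + x) - c| := Finset.abs_sum_le_sum_abs _ _
    _ ≤ ∑ x ∈ range K, |(Z (s + x + 1) : ℝ) - Z (s + x) - c| := by
        apply Finset.sum_le_sum_of_subset_of_nonneg
        · intro x hx; rw [mem_range] at *; omega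
        · intros; positivity

lemma sum_range_mul' (G K : ℕ) (f : ℕ → ℝ) :
    ∑ j ∈ range (G * K), f j = ∑ A ∈ range G, ∑ τ ∈ range K, f (A * K + τ) := by
  induction G with
  | zero => simp
  | succ G ih =>
    rw [Finset.sum_range_succ, ← ih, add_mul, one_mul, Finset.sum_range_add]

/-- Collapse estimate at one digit. -/
lemma collapse (K G ℓ p q : ℕ) (hK : 0 < K) (hℓ : 1 ≤ ℓ) (hq : 1 ≤ q) (σ T Z : ℕ → ℕ)
    (hσ : ∀ τ < K, σ τ < K) (hdvd : ∀ τ < K, K ∣ p * τ + q * σ τ)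
    (lam : ℝ) (hlam : 0 ≤ lam) :
    (((range (G * K)).biUnion fun j =>
      Finset.Ico (Z j + (T (j / K) * K + σ (j % K)) * ℓ)
        (Z (j + 1) + (T (j / K) * K + σ (j % K)) * ℓ + ℓ)).card : ℝ)
      ≤ (p + q) * (2 * |lam - p / q| * (G * K * ℓ)
        + 2 * ∑ j ∈ range (G * K), |(Z (j + 1) : ℝ) - Z j - lam * ℓ| + (lam + 2) * (G * ℓ)) := by
  have hq0 : (0 : ℝ) < q := by exact_mod_cast hq
  have hℓ0 : (1 : ℝ) ≤ ℓ := by exact_mod_cast hℓ
  have hK0 : (0 : ℝ) < K := by exact_mod_cast hK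
  set δ : ℝ := |lam - p / q| with hδ
  have hδ0 : 0 ≤ δ := abs_nonneg _
  let Δ : ℕ → ℝ := fun A => ∑ x ∈ range K, |(Z (A * K + x + 1) : ℝ) - Z (A * K + x) - lam * ℓ|
  have hΔ0 : ∀ A, 0 ≤ Δ A := fun A => Finset.sum_nonneg fun _ _ => abs_nonneg _
  let lo : ℕ × ℕ → ℝ := fun Az => (Z (Az.1 * K) : ℝ) + T Az.1 * K * ℓ + (K * Az.2 / q) * ℓ
    - (δ * K * ℓ + Δ Az.1)
  let hi : ℕ × ℕ → ℝ := fun Az => (Z (Az.1 * K) : ℝ) + T Az.1 * K * ℓ + (K * Az.2 / q) * ℓ
    + (δ * K * ℓ + Δ Az.1) + (lam + 1) * ℓ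
  have hsub : ((range (G * K)).biUnion fun j =>
      Finset.Ico (Z j + (T (j / K) * K + σ (j % K)) * ℓ)
        (Z (j + 1) + (T (j / K) * K + σ (j % K)) * ℓ + ℓ)) ⊆
      ((range G ×ˢ range (p + q)).biUnion fun Az => natIcc (lo Az) (hi Az)) := by
    intro w hw
    rw [Finset.mem_biUnion] at hw ⊢
    obtain ⟨j, hj, hw⟩ := hw
    rw [Finset.mem_Ico] at hw
    rw [mem_range] at hj
    set A := j / K with hA
    set τ := j % K with hτ
    have hτK : τ < K := Nat.mod_lt _ hK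
    have hAG : A < G := by
      rw [hA, Nat.div_lt_iff_lt_mul hK]; exact hj
    have hj2 : j = A * K + τ := by rw [hA, hτ, mul_comm]; exact (Nat.div_add_mod j K).symm
    obtain ⟨z, hz⟩ := hdvd τ hτK
    have hzlt : z < p + q := by
      by_contra hcon
      push Not at hcon
      have h1 : K * (p + q) ≤ K * z := Nat.mul_le_mul_left _ hcon
      have h2 : p * τ ≤ p * K := Nat.mul_le_mul_left _ hτK.le
      have h3 : q * σ τ < q * K := Nat.mul_lt_mul_of_pos_left (hσ τ hτK) (by omega)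
      have h4 : K * (p + q) = p * K + q * K := by ring
      omega
    refine ⟨(A, z), ?_, ?_⟩
    · rw [Finset.mem_product]; exact ⟨mem_range.mpr hAG, mem_range.mpr hzlt⟩
    -- real versions
    have hzr : (p : ℝ) * τ + q * σ τ = K * z := by exact_mod_cast hz
    have hστ : (σ τ : ℝ) = K * z / q - p / q * τ := by
      field_simp
      linarith
    have hdev1 := abs_sub_line_le Z (lam * ℓ) (A * K) K τ hτK.le
    have hdev2 := abs_sub_line_le Z (lam * ℓ) (A * K) K (τ + 1) hτK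
    rw [abs_le] at hdev1 hdev2
    have hτr : (τ : ℝ) ≤ K := by exact_mod_cast hτK.le
    have hτ0 : (0 : ℝ) ≤ τ := by positivity
    have hx : |(lam - p / q) * τ| ≤ δ * K := by
      rw [abs_mul, abs_of_nonneg hτ0]
      exact mul_le_mul le_rfl hτr hτ0 hδ0
    rw [abs_le] at hx
    have hw1 : ((Z j : ℝ) + (T A * K + σ τ) * ℓ) ≤ w := by exact_mod_cast hw.1
    have hw2 : (w : ℝ) ≤ (Z (j + 1) : ℝ) + (T A * K + σ τ) * ℓ + ℓ := by exact_mod_cast hw.2.le
    rw [hj2] at hw1 hw2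
    have e1 : A * K + τ + 1 = A * K + (τ + 1) := by ring
    rw [e1] at hw2
    have hx1 : (-(δ * K)) * ℓ ≤ (lam - p / q) * τ * ℓ :=
      mul_le_mul_of_nonneg_right hx.1 (by positivity)
    have hx2 : (lam - p / q) * τ * ℓ ≤ (δ * K) * ℓ :=
      mul_le_mul_of_nonneg_right hx.2 (by positivity)
    apply mem_natIcc
    · show (Z (A * K) : ℝ) + T A * K * ℓ + (K * z / q) * ℓ - (δ * K * ℓ + Δ A) ≤ w
      have h1 : (Z (A * K + τ) : ℝ) ≥ Z (A * K) + τ * (lam * ℓ) - Δ A := by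
        have := hdev1.1
        show (Z (A * K + τ) : ℝ) ≥ Z (A * K) + τ * (lam * ℓ) -
          ∑ x ∈ range K, |(Z (A * K + x + 1) : ℝ) - Z (A * K + x) - lam * ℓ|
        linarith
      have h2 : (T A * K + σ τ) * ℓ = (T A * K : ℝ) * ℓ + (K * z / q) * ℓ - p / q * τ * ℓ := by
        rw [hστ]; ring
      rw [h2] at hw1
      nlinarith
    · show (w : ℝ) ≤ (Z (A * K) : ℝ) + T A * K * ℓ + (K * z / q) * ℓ
        + (δ * K * ℓ + Δ A) + (lam + 1) * ℓ
      have h1 : (Z (A * K + (τ + 1)) : ℝ) ≤ Z (A * K) + (τ + 1) * (lam * ℓ) + Δ A := by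
        have := hdev2.2
        push_cast at this
        show (Z (A * K + (τ + 1)) : ℝ) ≤ Z (A * K) + (τ + 1) * (lam * ℓ) +
          ∑ x ∈ range K, |(Z (A * K + x + 1) : ℝ) - Z (A * K + x) - lam * ℓ|
        linarith
      have h2 : (T A * K + σ τ) * ℓ = (T A * K : ℝ) * ℓ + (K * z / q) * ℓ - p / q * τ * ℓ := by
        rw [hστ]; ring
      rw [h2] at hw2
      nlinarith
  have hle : ∀ Az ∈ range G ×ˢ range (p + q), lo Az ≤ hi Az := by
    intro Az _
    simp only [lo, hi]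
    have := hΔ0 Az.1
    have h2 : 0 ≤ δ * K * ℓ := by positivity
    have h3 : 0 ≤ (lam + 1) * ℓ := by positivity
    linarith
  calc _ ≤ ((((range G ×ˢ range (p + q)).biUnion fun Az => natIcc (lo Az) (hi Az)).card : ℕ) : ℝ) := by
        exact_mod_cast Finset.card_le_card hsub
    _ ≤ ∑ Az ∈ range G ×ˢ range (p + q), (hi Az - lo Az + 1) := card_biUnion_natIcc_le _ _ _ hle
    _ = ∑ A ∈ range G, (p + q) * (2 * δ * K * ℓ + 2 * Δ A + (lam + 1) * ℓ + 1) := by
        rw [Finset.sum_product]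
        apply Finset.sum_congr rfl
        intro A _
        have : ∀ z ∈ range (p + q), hi (A, z) - lo (A, z) + 1
            = 2 * δ * K * ℓ + 2 * Δ A + (lam + 1) * ℓ + 1 := by
          intro z _
          simp only [hi, lo]
          ring
        rw [Finset.sum_congr rfl this, Finset.sum_const, card_range, nsmul_eq_mul]
        push_cast
        ring
    _ = (p + q) * (2 * δ * (G * K * ℓ) + 2 * ∑ A ∈ range G, Δ A + (lam + 1) * (G * ℓ) + G) := by
        rw [← Finset.mul_sum]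
        congr 1
        have e : ∑ A ∈ range G, 2 * Δ A = 2 * ∑ A ∈ range G, Δ A := by rw [Finset.mul_sum]
        rw [Finset.sum_add_distrib, Finset.sum_add_distrib, Finset.sum_add_distrib, e]
        simp only [Finset.sum_const, card_range, nsmul_eq_mul]
        ring
    _ ≤ (p + q) * (2 * δ * (G * K * ℓ) + 2 * ∑ A ∈ range G, Δ A + (lam + 2) * (G * ℓ)) := by
        apply mul_le_mul_of_nonneg_left _ (by positivity)
        have : (G : ℝ) ≤ G * ℓ := by
          have : (0 : ℝ) ≤ G := by positivity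
          nlinarith
        nlinarith
    _ = _ := by
        rw [sum_range_mul' G K (fun j => |(Z (j + 1) : ℝ) - Z j - lam * ℓ|)]

end Pool.Agent.Lib.MP_70146a_co
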