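import Mathlib
import Pool.Agent.Lib.MP_70146a_co.Collapse

/-!
The gadget: a permutation `P` of `{0, …, M - 1}` such that every monotone sequence either
sees few windows or loses a definite amount of energy.
-/

namespace Pool.Agent.Lib.MP_70146a_co

open Finset

/-- The family of killers, indexed by `i = p (k + 1) + q`. -/
lemma killers_exist (K : ℕ) (hK : K.Prime) (k : ℕ) :
    ∃ s : ℕ → ℕ → ℕ, (∀ i τ, τ < K → s i τ < K) ∧
      (∀ i τ τ', τ < K → τ' < K → s i τ = s i τ' → τ = τ') ∧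
      ∀ i p q, i = p * (k + 1) + q → q < k + 1 → 1 ≤ p → p < K → 1 ≤ q → q < K →
        ∀ τ < K, K ∣ p * τ + q * s i τ := by
  have h : ∀ i : ℕ, ∃ σ : ℕ → ℕ, (∀ τ, τ < K → σ τ < K) ∧
      (∀ τ τ', τ < K → τ' < K → σ τ = σ τ' → τ = τ') ∧
      ∀ p q, i = p * (k + 1) + q → q < k + 1 → 1 ≤ p → p < K → 1 ≤ q → q < K →
        ∀ τ < K, K ∣ p * τ + q * σ τ := by
    intro i
    by_cases hi : 1 ≤ i / (k + 1) ∧ i / (k + 1) < K ∧ 1 ≤ i % (k + 1) ∧ i % (k + 1) < K
    · obtain ⟨σ, h1, h2, h3⟩ := killer_exists hK hi.1 hi.2.1 hi.2.2.1 hi.2.2.2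
      refine ⟨σ, h1, h2, ?_⟩
      intro p q hpq hq _ _ _ _
      have e1 : i / (k + 1) = p := by
        rw [hpq, Nat.add_comm, Nat.add_mul_div_right _ _ (by omega), Nat.div_eq_of_lt hq, zero_add]
      have e2 : i % (k + 1) = q := by
        rw [hpq, Nat.add_comm, Nat.add_mul_mod_self_right, Nat.mod_eq_of_lt hq]
      rw [e1, e2] at h3
      exact h3
    · refine ⟨id, fun _ h => h, fun _ _ _ _ h => h, ?_⟩
      intro p q hpq hq hp1 hpK hq1 hqK
      exfalso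
      apply hi
      have e1 : i / (k + 1) = p := by
        rw [hpq, Nat.add_comm, Nat.add_mul_div_right _ _ (by omega), Nat.div_eq_of_lt hq, zero_add]
      have e2 : i % (k + 1) = q := by
        rw [hpq, Nat.add_comm, Nat.add_mul_mod_self_right, Nat.mod_eq_of_lt hq]
      rw [e1, e2]
      exact ⟨hp1, hpK, hq1, hqK⟩
  choose s h1 h2 h3 using h
  exact ⟨s, h1, h2, h3⟩

/-- The windows at a fine level are contained in the windows at a coarse level. -/
lemma windows_subset (K : ℕ) (hK : 0 < K) (s : ℕ → ℕ → ℕ) (hs : ∀ i τ, τ < K → s i τ < K)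
    (i m ℓ : ℕ) (Y : ℕ → ℕ) (hY : Monotone Y) :
    ((range (K ^ (i + 1 + m))).biUnion fun t =>
      Finset.Ico (Y t + digitMap K s (i + 1 + m) t * ℓ)
        (Y (t + 1) + digitMap K s (i + 1 + m) t * ℓ + ℓ)) ⊆
    ((range (K ^ i * K)).biUnion fun j =>
      Finset.Ico (Y (j * K ^ m) + (digitMap K s i (j / K) * K + s i (j % K)) * (K ^ m * ℓ))
        (Y ((j + 1) * K ^ m) + (digitMap K s i (j / K) * K + s i (j % K)) * (K ^ m * ℓ)
          + K ^ m * ℓ)) := by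
  intro w hw
  rw [Finset.mem_biUnion] at hw ⊢
  obtain ⟨t, ht, hw⟩ := hw
  rw [mem_range] at ht
  rw [Finset.mem_Ico] at hw
  have hu : 0 < K ^ m := pow_pos hK m
  refine ⟨t / K ^ m, ?_, ?_⟩
  · rw [mem_range, Nat.div_lt_iff_lt_mul hu]
    calc t < K ^ (i + 1 + m) := ht
      _ = K ^ i * K * K ^ m := by rw [pow_add, pow_succ]
  · rw [Finset.mem_Ico]
    have h1 : digitMap K s (i + 1 + m) t / K ^ m = digitMap K s (i + 1) (t / K ^ m) :=
      digitMap_div hK hs (i + 1) m t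
    have h2 : digitMap K s i (t / K ^ m / K) * K + s i (t / K ^ m % K)
        = digitMap K s (i + 1) (t / K ^ m) := rfl
    rw [h2, ← h1]
    set D := digitMap K s (i + 1 + m) t with hD
    have h3 : D / K ^ m * K ^ m ≤ D := Nat.div_mul_le_self _ _
    have h4 : D + 1 ≤ (D / K ^ m + 1) * K ^ m := by
      have := Nat.lt_div_mul_add (a := D) hu
      rw [add_mul, one_mul]; omega
    have h5 : t / K ^ m * K ^ m ≤ t := Nat.div_mul_le_self _ _
    have h6 : t + 1 ≤ (t / K ^ m + 1) * K ^ m := by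
      have := Nat.lt_div_mul_add (a := t) hu
      rw [add_mul, one_mul]; omega
    have h7 := hY h5
    have h8 := hY h6
    have h9 : D / K ^ m * (K ^ m * ℓ) ≤ D * ℓ := by
      rw [← mul_assoc]; exact Nat.mul_le_mul_right _ h3
    have h10 : D * ℓ + ℓ ≤ D / K ^ m * (K ^ m * ℓ) + K ^ m * ℓ := by
      calc D * ℓ + ℓ = (D + 1) * ℓ := by ring
        _ ≤ ((D / K ^ m + 1) * K ^ m) * ℓ := Nat.mul_le_mul_right _ h4
        _ = _ := by ring
    constructor
    · calc Y (t / K ^ m * K ^ m) + D / K ^ m * (K ^ m * ℓ) ≤ Y t + D * ℓ := by omega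
        _ ≤ w := hw.1
    · calc w < Y (t + 1) + D * ℓ + ℓ := hw.2
        _ ≤ Y ((t / K ^ m + 1) * K ^ m) + D / K ^ m * (K ^ m * ℓ) + K ^ m * ℓ := by omega

/-- The energy threshold. -/
noncomputable def c0 (k : ℕ) : ℝ := 1 / (4 * k ^ 2 * (k + 1) ^ 5)

lemma coarse_energy (J u ℓ : ℕ) (hu : 0 < u) (hℓ : 1 ≤ ℓ) (Y : ℕ → ℕ) (hY : Monotone Y) :
    ∑ t ∈ range (J * u), Phi ℓ ((Y (t + 1) : ℝ) - Y t)
      ≤ ∑ j ∈ range J, Phi ((u * ℓ : ℕ) : ℝ) ((Y ((j + 1) * u) : ℝ) - Y (j * u)) := by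
  rw [sum_range_mul' J u (fun t => Phi ℓ ((Y (t + 1) : ℝ) - Y t))]
  apply Finset.sum_le_sum
  intro j _
  have hℓ0 : (0 : ℝ) < ℓ := by exact_mod_cast hℓ
  have h1 := sum_Phi_le (range u) (fun x => (Y (j * u + x + 1) : ℝ) - Y (j * u + x))
    (fun x _ => by
      have : Y (j * u + x) ≤ Y (j * u + x + 1) := hY (Nat.le_succ _)
      have : (Y (j * u + x) : ℝ) ≤ Y (j * u + x + 1) := by exact_mod_cast this
      linarith) hℓ0 ⟨0, mem_range.mpr hu⟩
  have h2 : ∑ x ∈ range u, ((Y (j * u + x + 1) : ℝ) - Y (j * u + x))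
      = (Y ((j + 1) * u) : ℝ) - Y (j * u) := by
    have := Finset.sum_range_sub (fun x => (Y (j * u + x) : ℝ)) u
    simp only [add_zero] at this
    rw [show (j + 1) * u = j * u + u by ring, ← this]
    simp only [add_assoc]
  rw [h2, card_range] at h1
  push_cast
  exact h1

lemma final_estimate (k K p q : ℕ) (lam x Dv : ℝ) (hk0 : (1 : ℝ) ≤ k) (hq1 : (1 : ℝ) ≤ q)
    (hqk' : (q : ℝ) ≤ k) (hlam0 : 0 ≤ lam) (hlamk : lam ≤ k)
    (hp2r : (p : ℝ) ≤ q * lam + 1 / (k + 1)) (hdir : |(q : ℝ) * lam - p| ≤ 1 / (k + 1))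
    (hx0 : 0 < x) (hDv2 : Dv ≤ x / (2 * k * (k + 1))) (hDv0 : 0 ≤ Dv)
    (hKr : (2 : ℝ) * k * (k + 1) ^ 2 ≤ K) :
    ((p : ℝ) + q) * (2 * |lam - p / q| * x + 2 * Dv + (lam + 2) * (x / K))
      ≤ 6 * (x + lam * x) / k := by
  have hinv : (1 : ℝ) / (k + 1) ≤ 1 := by
    rw [div_le_one (by positivity)]; linarith
  have hinv0 : (0 : ℝ) < 1 / (k + 1) := by positivity
  have hq0' : (0 : ℝ) < q := by linarith
  have hpq1 : (p : ℝ) + q ≤ (k + 1) * (lam + 1) := by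
    have : (q : ℝ) * lam ≤ k * lam := mul_le_mul_of_nonneg_right hqk' hlam0
    nlinarith
  have hpq2 : (p : ℝ) + q ≤ q * (lam + 1) + 1 := by
    nlinarith
  have hδ : |lam - p / q| ≤ 1 / (q * (k + 1)) := by
    rw [show lam - p / q = (q * lam - p) / q by field_simp, abs_div, abs_of_pos hq0',
      div_le_iff₀ hq0']
    rw [show 1 / ((q : ℝ) * (k + 1)) * q = 1 / (k + 1) by field_simp]
    exact hdir
  have hA : ((p : ℝ) + q) * |lam - p / q| ≤ 2 * (lam + 1) / k := by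
    calc ((p : ℝ) + q) * |lam - p / q| ≤ (q * (lam + 1) + 1) * (1 / (q * (k + 1))) :=
          mul_le_mul hpq2 hδ (abs_nonneg _) (by positivity)
      _ = (lam + 1) / (k + 1) + 1 / (q * (k + 1)) := by field_simp
      _ ≤ (lam + 1) / k + (lam + 1) / k := by
          apply add_le_add
          · apply div_le_div_of_nonneg_left (by positivity) (by positivity); linarith
          · apply div_le_div₀ (by positivity) (by linarith) (by positivity)
            nlinarith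
      _ = 2 * (lam + 1) / k := by ring
  have hB : ((p : ℝ) + q) * (2 * Dv) ≤ (lam + 1) * x / k := by
    calc ((p : ℝ) + q) * (2 * Dv) ≤ ((k + 1) * (lam + 1)) * (2 * (x / (2 * k * (k + 1)))) := by
          apply mul_le_mul hpq1 _ (by positivity) (by positivity)
          linarith
      _ = (lam + 1) * x / k := by field_simp
  have hC : ((p : ℝ) + q) * ((lam + 2) * (x / K)) ≤ (lam + 1) * x / k := by
    have hK0 : (0 : ℝ) < 2 * k * (k + 1) ^ 2 := by positivity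
    calc ((p : ℝ) + q) * ((lam + 2) * (x / K))
        ≤ ((k + 1) * (lam + 1)) * ((2 * (k + 1)) * (x / (2 * k * (k + 1) ^ 2))) := by
          apply mul_le_mul hpq1 _ (by positivity) (by positivity)
          apply mul_le_mul (by linarith) _ (by positivity) (by positivity)
          exact div_le_div_of_nonneg_left hx0.le hK0 hKr
      _ = (lam + 1) * x / k := by field_simp
  calc ((p : ℝ) + q) * (2 * |lam - p / q| * x + 2 * Dv + (lam + 2) * (x / K))
      = 2 * x * (((p : ℝ) + q) * |lam - p / q|) + ((p : ℝ) + q) * (2 * Dv)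
        + ((p : ℝ) + q) * ((lam + 2) * (x / K)) := by ring
    _ ≤ 2 * x * (2 * (lam + 1) / k) + (lam + 1) * x / k + (lam + 1) * x / k := by
        apply add_le_add (add_le_add _ hB) hC
        exact mul_le_mul_of_nonneg_left hA (by positivity)
    _ = 6 * (x + lam * x) / k := by ring

theorem gadget (k : ℕ) (hk : 1 ≤ k) :
    ∃ M : ℕ, ∃ P : ℕ → ℕ, 0 < M ∧ M ≤ (4 * k * (k + 1) ^ 2) ^ ((k + 1) ^ 3) ∧
      (∀ t, t < M → P t < M) ∧ (∀ t t', t < M → t' < M → P t = P t' → t = t') ∧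
      ∀ ℓ : ℕ, 1 ≤ ℓ → ∀ Y : ℕ → ℕ, Monotone Y →
        (M * ℓ : ℝ) ≤ k * ((Y M : ℝ) - Y 0) → ((Y M : ℝ) - Y 0) ≤ k * (M * ℓ) →
        ((((range M).biUnion fun t =>
          Finset.Ico (Y t + P t * ℓ) (Y (t + 1) + P t * ℓ + ℓ)).card : ℝ)
            ≤ 6 * (M * ℓ + ((Y M : ℝ) - Y 0)) / k) ∨
        (∑ t ∈ range M, Phi ℓ ((Y (t + 1) : ℝ) - Y t)
            ≤ Phi (M * ℓ) ((Y M : ℝ) - Y 0) - c0 k * (M * ℓ)) := by
  obtain ⟨K, hKp, hK1, hK2⟩ := Nat.exists_prime_lt_and_le_two_mul (2 * k * (k + 1) ^ 2)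
    (by positivity)
  have hK : 0 < K := hKp.pos
  obtain ⟨s, hs, hsinj, hskill⟩ := killers_exist K hKp k
  have hk0 : (1 : ℝ) ≤ k := by exact_mod_cast hk
  refine ⟨K ^ ((k + 1) ^ 3), digitMap K s ((k + 1) ^ 3), pow_pos hK _, ?_,
    digitMap_lt hK hs _, digitMap_injOn hK hs hsinj _, ?_⟩
  · apply Nat.pow_le_pow_left
    calc K ≤ 2 * (2 * k * (k + 1) ^ 2) := hK2
      _ = 4 * k * (k + 1) ^ 2 := by ring
  intro ℓ hℓ Y hY hlo hhi
  rw [or_iff_not_imp_right]
  intro hE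
  push Not at hE
  have hℓ0 : (1 : ℝ) ≤ ℓ := by exact_mod_cast hℓ
  have hM0 : (0 : ℝ) < K ^ ((k + 1) ^ 3) := by exact_mod_cast pow_pos hK _
  push_cast at hlo hhi hE ⊢
  set x : ℝ := (K : ℝ) ^ ((k + 1) ^ 3) * ℓ with hx
  have hx0 : 0 < x := by positivity
  set r : ℝ := (Y (K ^ ((k + 1) ^ 3)) : ℝ) - Y 0 with hr
  set lam : ℝ := r / x with hlam
  have hrx : r = lam * x := by rw [hlam]; field_simp
  have hlam1 : 1 / (k : ℝ) ≤ lam := by
    rw [hlam, div_le_div_iff₀ (by positivity) hx0]; linarith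
  have hlamk : lam ≤ k := by
    rw [hlam, div_le_iff₀ hx0]; exact hhi
  have hlam0 : 0 ≤ lam := le_trans (by positivity) hlam1
  -- Dirichlet
  obtain ⟨jj, qq, hq0, hqk, hdir⟩ := Real.exists_int_int_abs_mul_sub_le lam (n := k) (by omega)
  have hq1 : (1 : ℝ) ≤ (qq : ℝ) := by exact_mod_cast hq0
  have hqk' : (qq : ℝ) ≤ k := by exact_mod_cast hqk
  rw [abs_le] at hdir
  have hjpos : 0 < jj := by
    by_contra hcon
    push Not at hcon
    have h1 : (jj : ℝ) ≤ 0 := by exact_mod_cast hcon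
    have h2 : (1 : ℝ) / k ≤ qq * lam := by nlinarith
    have h3 : (1 : ℝ) / (k + 1) < 1 / k := by
      apply one_div_lt_one_div_of_lt (by positivity); linarith
    linarith [hdir.2]
  obtain ⟨q, rfl⟩ := Int.eq_ofNat_of_zero_le hq0.le
  obtain ⟨p, rfl⟩ := Int.eq_ofNat_of_zero_le hjpos.le
  simp only [Int.cast_natCast] at hdir hq1 hqk'
  have hp1 : 1 ≤ p := by omega
  have hq1' : 1 ≤ q := by omega
  have hqk'' : q ≤ k := by omega
  have hinv : (1 : ℝ) / (k + 1) ≤ 1 := by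
    rw [div_le_one (by positivity)]; linarith
  have hinv0 : (0 : ℝ) < 1 / (k + 1) := by positivity
  have hp2r : (p : ℝ) ≤ q * lam + 1 / (k + 1) := by linarith [hdir.1]
  have hp2 : p < (k + 1) ^ 2 := by
    have h1 : (p : ℝ) ≤ k * k + 1 := by
      calc (p : ℝ) ≤ q * lam + 1 / (k + 1) := hp2r
        _ ≤ k * k + 1 := by
          have : (q : ℝ) * lam ≤ k * k := mul_le_mul hqk' hlamk hlam0 (by positivity)
          linarith
    have h2 : p ≤ k * k + 1 := by exact_mod_cast h1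
    nlinarith
  have hpK : p < K := by nlinarith
  have hqK : q < K := by nlinarith
  obtain ⟨i, hi⟩ : ∃ i, i = p * (k + 1) + q := ⟨_, rfl⟩
  have hilt : i + 1 ≤ (k + 1) ^ 3 := by
    have h1 : p + 1 ≤ (k + 1) ^ 2 := hp2
    calc i + 1 = p * (k + 1) + q + 1 := by rw [hi]
      _ ≤ p * (k + 1) + (k + 1) := by omega
      _ = (p + 1) * (k + 1) := by ring
      _ ≤ (k + 1) ^ 2 * (k + 1) := Nat.mul_le_mul_right _ h1
      _ = (k + 1) ^ 3 := by ring
  obtain ⟨m, hm⟩ := Nat.exists_eq_add_of_le hilt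
  have hkill := hskill i p q hi (by omega) hp1 hpK hq1' hqK
  rw [hm] at hx hr hE ⊢
  have hu : 0 < K ^ m := pow_pos hK m
  have hsub := windows_subset K hK s hs i m ℓ Y hY
  have hcol := collapse K (K ^ i) (K ^ m * ℓ) p q hK (Nat.mul_pos hu hℓ) hq1' (s i)
    (digitMap K s i) (fun j => Y (j * K ^ m)) (hs i) hkill lam hlam0
  have hcard : ((((range (K ^ (i + 1 + m))).biUnion fun t =>
      Finset.Ico (Y t + digitMap K s (i + 1 + m) t * ℓ)
        (Y (t + 1) + digitMap K s (i + 1 + m) t * ℓ + ℓ)).card : ℕ) : ℝ) ≤ _ :=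
    le_trans (by exact_mod_cast Finset.card_le_card hsub) hcol
  refine hcard.trans ?_
  -- sizes
  have hK0 : (0 : ℝ) < K := by exact_mod_cast hK
  have e1 : ((K ^ i : ℕ) : ℝ) * K * ((K ^ m * ℓ : ℕ) : ℝ) = x := by
    rw [hx]; push_cast; rw [pow_add, pow_succ]; ring
  have e2 : ((K ^ i : ℕ) : ℝ) * ((K ^ m * ℓ : ℕ) : ℝ) = x / K := by
    rw [← e1]; field_simp
  rw [e1, e2]
  -- deviation
  set Dv := ∑ j ∈ range (K ^ i * K),
    |((Y ((j + 1) * K ^ m) : ℝ)) - (Y (j * K ^ m)) - lam * ((K ^ m * ℓ : ℕ) : ℝ)| with hDv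
  have hDv0 : 0 ≤ Dv := Finset.sum_nonneg fun _ _ => abs_nonneg _
  have hDvle : Dv ^ 2 ≤ (c0 k * x) * (1 + lam) ^ 3 * x := by
    have hmono : ∀ j, (Y (j * K ^ m) : ℝ) ≤ Y ((j + 1) * K ^ m) := by
      intro j
      have : Y (j * K ^ m) ≤ Y ((j + 1) * K ^ m) := hY (Nat.mul_le_mul_right _ (Nat.le_succ _))
      exact_mod_cast this
    have e3 : ((range (K ^ i * K)).card : ℝ) * ((K ^ m * ℓ : ℕ) : ℝ) = x := by
      rw [card_range, ← e1]; push_cast; ring
    have hsum : ∑ j ∈ range (K ^ i * K), ((Y ((j + 1) * K ^ m) : ℝ) - Y (j * K ^ m))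
        = lam * (((range (K ^ i * K)).card : ℝ) * ((K ^ m * ℓ : ℕ) : ℝ)) := by
      rw [e3, Finset.sum_range_sub (fun j => (Y (j * K ^ m) : ℝ)), ← hrx, hr]
      rw [show K ^ i * K * K ^ m = K ^ (i + 1 + m) by rw [pow_add, pow_succ]]
      simp
    have h1 := sum_dev_le (range (K ^ i * K))
      (fun j => (Y ((j + 1) * K ^ m) : ℝ) - Y (j * K ^ m))
      (fun j _ => by have := hmono j; linarith)
      (a := ((K ^ m * ℓ : ℕ) : ℝ)) (by exact_mod_cast Nat.mul_pos hu hℓ) hlam0 hsum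
      (E := c0 k * x) ?_ ⟨0, mem_range.mpr (by positivity)⟩
    · rw [e3] at h1
      exact h1
    · rw [e3, ← hrx]
      have h2 := coarse_energy (K ^ i * K) (K ^ m) ℓ hu hℓ Y hY
      rw [show K ^ i * K * K ^ m = K ^ (i + 1 + m) by rw [pow_add, pow_succ]] at h2
      exact hE.le.trans h2
  have hDv2 : Dv ≤ x / (2 * k * (k + 1)) := by
    apply le_of_sq_le_sq _ (by positivity)
    refine hDvle.trans ?_
    have h1 : (1 + lam) ^ 3 ≤ (k + 1) ^ 3 := by
      apply pow_le_pow_left₀ (by positivity); linarith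
    calc c0 k * x * (1 + lam) ^ 3 * x ≤ c0 k * x * (k + 1) ^ 3 * x := by
          have hc : 0 ≤ c0 k := by unfold c0; positivity
          gcongr
      _ = (x / (2 * k * (k + 1))) ^ 2 := by
          unfold c0; field_simp; ring
  -- final estimate
  have hKr : (2 : ℝ) * k * (k + 1) ^ 2 ≤ K := by exact_mod_cast hK1.le
  rw [hrx]
  exact final_estimate k K p q lam x Dv hk0 hq1 hqk' hlam0 hlamk hp2r (by rw [abs_le]; exact hdir)
    hx0 hDv2 hDv0 hKr

end Pool.Agent.Lib.MP_70146a_co
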