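import Mathlib
import Pool.Agent.Lib.MP_70146a_co.Gadget

/-!
Hierarchical permutations and the bound on the number of distinct weights.
-/

namespace Pool.Agent.Lib.MP_70146a_co

open Finset

/-- The hierarchical map. -/
def hier (M : ℕ) (P : ℕ → ℕ) : ℕ → ℕ → ℕ
  | 0, _ => 0
  | h + 1, x => P (x / M ^ h) * M ^ h + hier M P h (x % M ^ h)

lemma hier_lt {M : ℕ} (hM : 0 < M) {P : ℕ → ℕ} (hP : ∀ t, t < M → P t < M) (h : ℕ) :
    ∀ x, x < M ^ h → hier M P h x < M ^ h := by
  induction h with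
  | zero => intro x _; simp [hier]
  | succ h ih =>
    intro x hx
    have hℓ : 0 < M ^ h := pow_pos hM h
    simp only [hier]
    have h1 : x / M ^ h < M := by
      rw [Nat.div_lt_iff_lt_mul hℓ, ← pow_succ']; exact hx
    have h2 := hP _ h1
    have h3 := ih _ (Nat.mod_lt x hℓ)
    calc P (x / M ^ h) * M ^ h + hier M P h (x % M ^ h) < P (x / M ^ h) * M ^ h + M ^ h := by omega
      _ = (P (x / M ^ h) + 1) * M ^ h := by ring
      _ ≤ M * M ^ h := Nat.mul_le_mul_right _ h2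
      _ = M ^ (h + 1) := by rw [pow_succ']

lemma hier_inj {M : ℕ} (hM : 0 < M) {P : ℕ → ℕ} (hP : ∀ t, t < M → P t < M)
    (hPi : ∀ t t', t < M → t' < M → P t = P t' → t = t') (h : ℕ) :
    ∀ x x', x < M ^ h → x' < M ^ h → hier M P h x = hier M P h x' → x = x' := by
  induction h with
  | zero => intro x x' hx hx' _; simp at hx hx'; omega
  | succ h ih =>
    intro x x' hx hx' heq
    have hℓ : 0 < M ^ h := pow_pos hM h
    simp only [hier] at heq
    have h1 : x / M ^ h < M := by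
      rw [Nat.div_lt_iff_lt_mul hℓ, ← pow_succ']; exact hx
    have h1' : x' / M ^ h < M := by
      rw [Nat.div_lt_iff_lt_mul hℓ, ← pow_succ']; exact hx'
    have h3 := hier_lt hM hP h _ (Nat.mod_lt x hℓ)
    have h3' := hier_lt hM hP h _ (Nat.mod_lt x' hℓ)
    have h4 : P (x / M ^ h) = P (x' / M ^ h) := by
      have e1 : (P (x / M ^ h) * M ^ h + hier M P h (x % M ^ h)) / M ^ h = P (x / M ^ h) := by
        rw [Nat.add_comm, Nat.add_mul_div_right _ _ hℓ, Nat.div_eq_of_lt h3, zero_add]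
      have e2 : (P (x' / M ^ h) * M ^ h + hier M P h (x' % M ^ h)) / M ^ h = P (x' / M ^ h) := by
        rw [Nat.add_comm, Nat.add_mul_div_right _ _ hℓ, Nat.div_eq_of_lt h3', zero_add]
      rw [← e1, ← e2, heq]
    have h5 := hPi _ _ h1 h1' h4
    rw [h4] at heq
    have h6 : hier M P h (x % M ^ h) = hier M P h (x' % M ^ h) := by omega
    have h7 := ih _ _ (Nat.mod_lt x hℓ) (Nat.mod_lt x' hℓ) h6
    rw [← Nat.div_add_mod x (M ^ h), ← Nat.div_add_mod x' (M ^ h), h5, h7]

lemma c0_pos {k : ℕ} (hk : 1 ≤ k) : 0 < c0 k := by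
  unfold c0
  have : (0 : ℝ) < k := by exact_mod_cast hk
  positivity

/-- rows of a compatible set are bounded in number. -/
lemma card_le_rows (E : Finset (ℕ × ℕ)) (N : ℕ) (hN : ∀ e ∈ E, e.1 < N)
    (hinj : ∀ e ∈ E, ∀ e' ∈ E, e.1 = e'.1 → e = e') (Y : ℕ → ℕ) (hY : Monotone Y)
    (hc : ∀ e ∈ E, Y e.1 ≤ e.2 ∧ e.2 < Y (e.1 + 1)) : (E.card : ℝ) ≤ (Y N : ℝ) - Y 0 := by
  have h1 : E.card ≤ (Finset.Ico (Y 0) (Y N)).card := by
    apply Finset.card_le_card_of_injOn (fun e => e.2)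
    · intro e he
      have h1 := hc e he
      have h2 := hY (Nat.zero_le e.1)
      have h3 := hY (Nat.succ_le_of_lt (hN e he))
      simp only [Finset.coe_Ico, Set.mem_Ico]
      exact ⟨h2.trans h1.1, lt_of_lt_of_le h1.2 h3⟩
    · intro e he e' he' heq
      simp only at heq
      apply hinj e he e' he'
      by_contra hne
      rcases Nat.lt_or_gt_of_ne hne with hlt | hlt
      · have h1 := (hc e he).2
        have h2 := (hc e' he').1
        have h3 := hY (Nat.succ_le_of_lt hlt)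
        simp only [Nat.succ_eq_add_one] at h3
        omega
      · have h1 := (hc e' he').2
        have h2 := (hc e he).1
        have h3 := hY (Nat.succ_le_of_lt hlt)
        simp only [Nat.succ_eq_add_one] at h3
        omega
  rw [Nat.card_Ico] at h1
  have h2 : Y 0 ≤ Y N := hY (Nat.zero_le _)
  have h3 : (E.card : ℝ) ≤ ((Y N - Y 0 : ℕ) : ℝ) := by exact_mod_cast h1
  rwa [Nat.cast_sub h2] at h3

lemma card_le_cols (E : Finset (ℕ × ℕ)) (N : ℕ) (hN : ∀ e ∈ E, e.1 < N)
    (hinj : ∀ e ∈ E, ∀ e' ∈ E, e.1 = e'.1 → e = e') : (E.card : ℝ) ≤ N := by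
  have h1 : E.card ≤ (range N).card := by
    apply Finset.card_le_card_of_injOn (fun e => e.1)
    · intro e he
      simp only [Finset.coe_range, Set.mem_Iio]
      exact hN e he
    · intro e he e' he' heq
      exact hinj e he e' he' heq
  rw [card_range] at h1
  exact_mod_cast h1

/-- Number of distinct weights. -/
def nw (f : ℕ → ℕ) (E : Finset (ℕ × ℕ)) : ℕ := (E.image fun e => e.2 + f e.1).card

lemma nw_le_card (f : ℕ → ℕ) (E : Finset (ℕ × ℕ)) : nw f E ≤ E.card := Finset.card_image_le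

/-- Splitting into blocks. -/
lemma nw_le_sum (E : Finset (ℕ × ℕ)) (f : ℕ → ℕ) (ℓ m : ℕ) (hℓ : 0 < ℓ)
    (hN : ∀ e ∈ E, e.1 < m * ℓ) (g : ℕ → ℕ → ℕ) (v : ℕ → ℕ)
    (hf : ∀ x, f x = v (x / ℓ) + g (x / ℓ) (x % ℓ)) :
    nw f E ≤ ∑ t ∈ range m,
      nw (g t) ((E.filter fun e => e.1 / ℓ = t).image fun e => (e.1 % ℓ, e.2)) := by
  unfold nw
  have h1 : (E.image fun e => e.2 + f e.1) ⊆ (range m).biUnion fun t =>
      ((((E.filter fun e => e.1 / ℓ = t).image fun e => (e.1 % ℓ, e.2)).image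
        fun e => e.2 + g t e.1).image fun w => w + v t) := by
    intro w hw
    rw [Finset.mem_image] at hw
    obtain ⟨e, he, rfl⟩ := hw
    rw [Finset.mem_biUnion]
    refine ⟨e.1 / ℓ, ?_, ?_⟩
    · rw [mem_range, Nat.div_lt_iff_lt_mul hℓ]; exact hN e he
    · rw [Finset.mem_image]
      refine ⟨e.2 + g (e.1 / ℓ) (e.1 % ℓ), ?_, ?_⟩
      · rw [Finset.mem_image]
        refine ⟨(e.1 % ℓ, e.2), ?_, rfl⟩
        rw [Finset.mem_image]
        exact ⟨e, Finset.mem_filter.mpr ⟨he, rfl⟩, rfl⟩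
      · rw [hf]; ring
  refine (Finset.card_le_card h1).trans (Finset.card_biUnion_le.trans ?_)
  apply Finset.sum_le_sum
  intro t _
  exact Finset.card_image_le

theorem nw_hier_le (k : ℕ) (hk : 1 ≤ k) (M : ℕ) (P : ℕ → ℕ) (hM : 0 < M)
    (hP : ∀ t, t < M → P t < M)
    (hG : ∀ ℓ : ℕ, 1 ≤ ℓ → ∀ Y : ℕ → ℕ, Monotone Y →
        (M * ℓ : ℝ) ≤ k * ((Y M : ℝ) - Y 0) → ((Y M : ℝ) - Y 0) ≤ k * (M * ℓ) →
        ((((range M).biUnion fun t =>
          Finset.Ico (Y t + P t * ℓ) (Y (t + 1) + P t * ℓ + ℓ)).card : ℝ)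
            ≤ 6 * (M * ℓ + ((Y M : ℝ) - Y 0)) / k) ∨
        (∑ t ∈ range M, Phi ℓ ((Y (t + 1) : ℝ) - Y t)
            ≤ Phi (M * ℓ) ((Y M : ℝ) - Y 0) - c0 k * (M * ℓ)))
    (h : ℕ) : ∀ E : Finset (ℕ × ℕ), (∀ e ∈ E, e.1 < M ^ (h + 1)) →
      (∀ e ∈ E, ∀ e' ∈ E, e.1 = e'.1 → e = e') →
      ∀ Y : ℕ → ℕ, Monotone Y → (∀ e ∈ E, Y e.1 ≤ e.2 ∧ e.2 < Y (e.1 + 1)) →
      (nw (hier M P (h + 1)) E : ℝ) ≤ 6 * ((M : ℝ) ^ (h + 1) + ((Y (M ^ (h + 1)) : ℝ) - Y 0)) / k
        + Phi ((M : ℝ) ^ (h + 1)) ((Y (M ^ (h + 1)) : ℝ) - Y 0) / (c0 k * (h + 1)) := by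
  induction h with
  | zero =>
    intro E hE hinj Y hY hc
    have hk0 : (0 : ℝ) < k := by exact_mod_cast hk
    have hc0 := c0_pos hk
    have hr0 : (0 : ℝ) ≤ (Y (M ^ (0 + 1)) : ℝ) - Y 0 := by
      have : Y 0 ≤ Y (M ^ (0 + 1)) := hY (Nat.zero_le _)
      have : (Y 0 : ℝ) ≤ Y (M ^ (0 + 1)) := by exact_mod_cast this
      linarith
    have hM0 : (0 : ℝ) < M := by exact_mod_cast hM
    have hPhi0 : 0 ≤ Phi ((M : ℝ) ^ (0 + 1)) ((Y (M ^ (0 + 1)) : ℝ) - Y 0) :=
      Phi_nonneg (by positivity) hr0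
    have hrows := card_le_rows E _ hE hinj Y hY hc
    have hcols := card_le_cols E _ hE hinj
    have hnw : (nw (hier M P (0 + 1)) E : ℝ) ≤ E.card := by exact_mod_cast nw_le_card _ _
    have hterm2 : 0 ≤ Phi ((M : ℝ) ^ (0 + 1)) ((Y (M ^ (0 + 1)) : ℝ) - Y 0) /
      (c0 k * ((0 : ℕ) + 1)) := by positivity
    simp only [zero_add, pow_one] at *
    by_cases h1 : (M : ℝ) ≤ k * ((Y M : ℝ) - Y 0)
    swap
    · push Not at h1
      have : (nw (hier M P 1) E : ℝ) ≤ 6 * (M + ((Y M : ℝ) - Y 0)) / k := by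
        rw [le_div_iff₀ hk0]
        nlinarith
      linarith
    by_cases h2 : ((Y M : ℝ) - Y 0) ≤ k * M
    swap
    · push Not at h2
      have : (nw (hier M P 1) E : ℝ) ≤ 6 * (M + ((Y M : ℝ) - Y 0)) / k := by
        rw [le_div_iff₀ hk0]
        nlinarith
      linarith
    rcases hG 1 le_rfl Y hY (by simpa using h1) (by simpa using h2) with h3 | h3
    · have hsub : (E.image fun e => e.2 + hier M P 1 e.1) ⊆ ((range M).biUnion fun t =>
          Finset.Ico (Y t + P t * 1) (Y (t + 1) + P t * 1 + 1)) := by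
        intro w hw
        rw [Finset.mem_image] at hw
        obtain ⟨e, he, rfl⟩ := hw
        rw [Finset.mem_biUnion]
        refine ⟨e.1, mem_range.mpr (hE e he), ?_⟩
        rw [Finset.mem_Ico]
        have := hc e he
        simp only [hier, pow_zero, Nat.div_one, Nat.mod_one]
        omega
      have h4 : (nw (hier M P 1) E : ℝ) ≤ _ := le_trans (by
        unfold nw; exact_mod_cast Finset.card_le_card hsub) h3
      simp only [Nat.cast_one, mul_one] at h4
      linarith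
    · simp only [Nat.cast_one, mul_one] at h3
      have h4 : 0 ≤ ∑ t ∈ range M, Phi 1 ((Y (t + 1) : ℝ) - Y t) := by
        apply Finset.sum_nonneg
        intro t _
        apply Phi_nonneg zero_le_one
        have : Y t ≤ Y (t + 1) := hY (Nat.le_succ _)
        have : (Y t : ℝ) ≤ Y (t + 1) := by exact_mod_cast this
        linarith
      have h5 : (M : ℝ) ≤ Phi M ((Y M : ℝ) - Y 0) / (c0 k * ((0 : ℕ) + 1)) := by
        rw [le_div_iff₀ (by positivity)]
        push_cast
        linarith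
      have h6 : 0 ≤ 6 * ((M : ℝ) + ((Y M : ℝ) - Y 0)) / k := by positivity
      linarith
  | succ h ih =>
    intro E hE hinj Y hY hc
    have hk0 : (0 : ℝ) < k := by exact_mod_cast hk
    have hc0 := c0_pos hk
    set ℓ : ℕ := M ^ (h + 1) with hℓdef
    have hℓ : 0 < ℓ := pow_pos hM _
    have hpow : M ^ (h + 1 + 1) = M * ℓ := by rw [pow_succ']
    have hpowr : (M : ℝ) ^ (h + 1 + 1) = M * ℓ := by
      rw [hℓdef]; push_cast; rw [pow_succ']
    rw [hpow] at hE ⊢
    rw [hpowr]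
    set r : ℝ := (Y (M * ℓ) : ℝ) - Y 0 with hr
    have hr0 : (0 : ℝ) ≤ r := by
      have : Y 0 ≤ Y (M * ℓ) := hY (Nat.zero_le _)
      have : (Y 0 : ℝ) ≤ Y (M * ℓ) := by exact_mod_cast this
      rw [hr]; linarith
    have hM0 : (0 : ℝ) < M := by exact_mod_cast hM
    have hℓ0 : (0 : ℝ) < ℓ := by exact_mod_cast hℓ
    have hPhi0 : 0 ≤ Phi ((M : ℝ) * ℓ) r := Phi_nonneg (by positivity) hr0
    have hrows := card_le_rows E _ hE hinj Y hY hc
    have hcols := card_le_cols E _ hE hinj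
    have hnw : (nw (hier M P (h + 1 + 1)) E : ℝ) ≤ E.card := by exact_mod_cast nw_le_card _ _
    rw [← hr] at hrows
    push_cast at hcols
    have hterm2 : 0 ≤ Phi ((M : ℝ) * ℓ) r / (c0 k * (((h + 1 : ℕ) : ℝ) + 1)) := by positivity
    by_cases h1 : (M * ℓ : ℝ) ≤ k * r
    swap
    · push Not at h1
      have : (nw (hier M P (h + 1 + 1)) E : ℝ) ≤ 6 * (M * ℓ + r) / k := by
        rw [le_div_iff₀ hk0]
        nlinarith
      linarith
    by_cases h2 : r ≤ k * (M * ℓ)
    swap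
    · push Not at h2
      have : (nw (hier M P (h + 1 + 1)) E : ℝ) ≤ 6 * (M * ℓ + r) / k := by
        rw [le_div_iff₀ hk0]
        nlinarith
      linarith
    have hY' : Monotone fun t => Y (t * ℓ) := fun a b hab => hY (Nat.mul_le_mul_right _ hab)
    have hzero : (fun t => Y (t * ℓ)) 0 = Y 0 := by simp
    rcases hG ℓ hℓ (fun t => Y (t * ℓ)) hY' (by simpa [hr] using h1) (by simpa [hr] using h2)
      with h3 | h3
    · have hsub : (E.image fun e => e.2 + hier M P (h + 1 + 1) e.1) ⊆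
          ((range M).biUnion fun t =>
            Finset.Ico (Y (t * ℓ) + P t * ℓ) (Y ((t + 1) * ℓ) + P t * ℓ + ℓ)) := by
        intro w hw
        rw [Finset.mem_image] at hw
        obtain ⟨e, he, rfl⟩ := hw
        rw [Finset.mem_biUnion]
        refine ⟨e.1 / ℓ, ?_, ?_⟩
        · rw [mem_range, Nat.div_lt_iff_lt_mul hℓ]; exact hE e he
        rw [Finset.mem_Ico]
        have h4 := hc e he
        have h5 : e.1 / ℓ * ℓ ≤ e.1 := Nat.div_mul_le_self _ _
        have h6 : e.1 + 1 ≤ (e.1 / ℓ + 1) * ℓ := by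
          have := Nat.lt_div_mul_add (a := e.1) hℓ
          rw [add_mul, one_mul]; omega
        have h7 := hY h5
        have h8 := hY h6
        have h9 := hier_lt hM hP (h + 1) _ (Nat.mod_lt e.1 hℓ)
        rw [← hℓdef] at h9
        have h10 : hier M P (h + 1 + 1) e.1
            = P (e.1 / ℓ) * ℓ + hier M P (h + 1) (e.1 % ℓ) := rfl
        rw [h10]
        constructor <;> omega
      have h4 : (nw (hier M P (h + 1 + 1)) E : ℝ) ≤ _ := le_trans (by
        unfold nw; exact_mod_cast Finset.card_le_card hsub) h3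
      simp only [zero_mul] at h4
      rw [← hr] at h4
      linarith
    · simp only [zero_mul] at h3
      rw [← hr] at h3
      by_cases h4 : c0 k * (((h + 1 : ℕ) : ℝ) + 1) * (M * ℓ) ≤ Phi ((M : ℝ) * ℓ) r
      · have h5 : (M * ℓ : ℝ) ≤ Phi (M * ℓ) r / (c0 k * (((h + 1 : ℕ) : ℝ) + 1)) := by
          rw [le_div_iff₀ (by positivity)]
          linarith
        have h6 : 0 ≤ 6 * ((M : ℝ) * ℓ + r) / k := by positivity
        linarith
      · push Not at h4
        -- split
        have h5 := nw_le_sum E (hier M P (h + 1 + 1)) ℓ M hℓ hE (fun _ => hier M P (h + 1))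
          (fun t => P t * ℓ) (fun x => rfl)
        have h6 : ∀ t ∈ range M, (nw (hier M P (h + 1))
            ((E.filter fun e => e.1 / ℓ = t).image fun e => (e.1 % ℓ, e.2)) : ℝ)
            ≤ 6 * ((ℓ : ℝ) + ((Y ((t + 1) * ℓ) : ℝ) - Y (t * ℓ))) / k
              + Phi ℓ ((Y ((t + 1) * ℓ) : ℝ) - Y (t * ℓ)) / (c0 k * (h + 1)) := by
          intro t _
          have h7 := ih ((E.filter fun e => e.1 / ℓ = t).image fun e => (e.1 % ℓ, e.2))
            (by
              intro e he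
              rw [Finset.mem_image] at he
              obtain ⟨e', _, rfl⟩ := he
              exact Nat.mod_lt _ hℓ)
            (by
              intro e he e' he' heq
              rw [Finset.mem_image] at he he'
              obtain ⟨a, ha, rfl⟩ := he
              obtain ⟨b, hb, rfl⟩ := he'
              rw [Finset.mem_filter] at ha hb
              simp only at heq
              have h8 : a.1 = b.1 := by
                rw [← Nat.div_add_mod a.1 ℓ, ← Nat.div_add_mod b.1 ℓ, ha.2, hb.2, heq]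
              rw [hinj a ha.1 b hb.1 h8])
            (fun x => Y (t * ℓ + x)) (fun a b hab => hY (Nat.add_le_add_left hab _))
            (by
              intro e he
              rw [Finset.mem_image] at he
              obtain ⟨a, ha, rfl⟩ := he
              rw [Finset.mem_filter] at ha
              have h8 := hc a ha.1
              have h9 : t * ℓ + a.1 % ℓ = a.1 := by
                rw [← ha.2, mul_comm]; exact Nat.div_add_mod a.1 ℓ
              simp only
              rw [← add_assoc, h9]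
              exact h8)
          simp only [add_zero] at h7
          have e1 : t * ℓ + M ^ (h + 1) = (t + 1) * ℓ := by rw [← hℓdef]; ring
          have e2 : ((M : ℝ) ^ (h + 1)) = ℓ := by rw [hℓdef]; push_cast; rfl
          rw [e1, e2] at h7
          exact h7
        have h7 : (nw (hier M P (h + 1 + 1)) E : ℝ) ≤ ∑ t ∈ range M,
            (6 * ((ℓ : ℝ) + ((Y ((t + 1) * ℓ) : ℝ) - Y (t * ℓ))) / k
              + Phi ℓ ((Y ((t + 1) * ℓ) : ℝ) - Y (t * ℓ)) / (c0 k * (h + 1))) := by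
          refine le_trans ?_ (Finset.sum_le_sum h6)
          exact_mod_cast h5
        have h8 : ∑ t ∈ range M, ((Y ((t + 1) * ℓ) : ℝ) - Y (t * ℓ)) = r := by
          rw [Finset.sum_range_sub (fun t => (Y (t * ℓ) : ℝ))]
          simp [hr]
        have h9 : ∑ t ∈ range M,
            (6 * ((ℓ : ℝ) + ((Y ((t + 1) * ℓ) : ℝ) - Y (t * ℓ))) / k
              + Phi ℓ ((Y ((t + 1) * ℓ) : ℝ) - Y (t * ℓ)) / (c0 k * (h + 1)))
            = 6 * (M * ℓ + r) / k
              + (∑ t ∈ range M, Phi ℓ ((Y ((t + 1) * ℓ) : ℝ) - Y (t * ℓ))) / (c0 k * (h + 1)) := by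
          rw [Finset.sum_add_distrib, ← Finset.sum_div, ← Finset.sum_div, ← Finset.mul_sum,
            Finset.sum_add_distrib, h8, Finset.sum_const, card_range, nsmul_eq_mul]
        rw [h9] at h7
        have h10 : (∑ t ∈ range M, Phi ℓ ((Y ((t + 1) * ℓ) : ℝ) - Y (t * ℓ))) / (c0 k * (h + 1))
            ≤ Phi ((M : ℝ) * ℓ) r / (c0 k * (((h + 1 : ℕ) : ℝ) + 1)) := by
          have h11 : (∑ t ∈ range M, Phi ℓ ((Y ((t + 1) * ℓ) : ℝ) - Y (t * ℓ))) / (c0 k * (h + 1))
              ≤ (Phi ((M : ℝ) * ℓ) r - c0 k * (M * ℓ)) / (c0 k * (h + 1)) :=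
            div_le_div_of_nonneg_right h3 (by positivity)
          refine h11.trans ?_
          rw [div_le_div_iff₀ (by positivity) (by positivity)]
          push_cast at h4 ⊢
          have hh : (0 : ℝ) ≤ h := by positivity
          have hcc : 0 ≤ c0 k := hc0.le
          have key : (Phi ((M : ℝ) * ℓ) r - c0 k * (M * ℓ)) * (h + 1 + 1)
              ≤ Phi ((M : ℝ) * ℓ) r * (h + 1) := by
            nlinarith
          calc (Phi ((M : ℝ) * ℓ) r - c0 k * (M * ℓ)) * (c0 k * (h + 1 + 1))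
              = c0 k * ((Phi ((M : ℝ) * ℓ) r - c0 k * (M * ℓ)) * (h + 1 + 1)) := by ring
            _ ≤ c0 k * (Phi ((M : ℝ) * ℓ) r * (h + 1)) := mul_le_mul_of_nonneg_left key hcc
            _ = Phi ((M : ℝ) * ℓ) r * (c0 k * (h + 1)) := by ring
        linarith

end Pool.Agent.Lib.MP_70146a_co
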