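import Mathlib
import Pool.Agent.Lib.MP_70146a_co.Hier

/-!
The combinatorial upper bound for monotone matchings.
-/

namespace Pool.Agent.Lib.MP_70146a_co

open Finset

/-- `N k` bound. -/
lemma exists_block (k : ℕ) (hk : 1 ≤ k) :
    ∃ N : ℕ, ∃ f : ℕ → ℕ, 0 < N ∧ N ≤ (4 * k * (k + 1) ^ 2) ^ ((k + 1) ^ 3 * (4 * k ^ 3 * (k + 1) ^ 5)) ∧
      (∀ x, x < N → f x < N) ∧ (∀ x x', x < N → x' < N → f x = f x' → x = x') ∧
      ∀ E : Finset (ℕ × ℕ), (∀ e ∈ E, e.1 < N) →
      (∀ e ∈ E, ∀ e' ∈ E, e.1 = e'.1 → e = e') →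
      ∀ Y : ℕ → ℕ, Monotone Y → (∀ e ∈ E, Y e.1 ≤ e.2 ∧ e.2 < Y (e.1 + 1)) →
      (nw f E : ℝ) ≤ 6 * (N + ((Y N : ℝ) - Y 0)) / k + N / k := by
  obtain ⟨M, P, hM, hMle, hP, hPi, hG⟩ := gadget k hk
  obtain ⟨h, hh⟩ : ∃ h, h + 1 = 4 * k ^ 3 * (k + 1) ^ 5 := by
    have : 0 < 4 * k ^ 3 * (k + 1) ^ 5 := by positivity
    exact ⟨4 * k ^ 3 * (k + 1) ^ 5 - 1, by omega⟩
  have hk0 : (0 : ℝ) < k := by exact_mod_cast hk
  refine ⟨M ^ (h + 1), hier M P (h + 1), pow_pos hM _, ?_, hier_lt hM hP _, hier_inj hM hP hPi _, ?_⟩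
  · rw [hh]
    calc M ^ (4 * k ^ 3 * (k + 1) ^ 5)
        ≤ ((4 * k * (k + 1) ^ 2) ^ ((k + 1) ^ 3)) ^ (4 * k ^ 3 * (k + 1) ^ 5) :=
          Nat.pow_le_pow_left hMle _
      _ = _ := by rw [← pow_mul]
  · intro E hE hinj Y hY hc
    have h1 := nw_hier_le k hk M P hM hP hG h E hE hinj Y hY hc
    have hr0 : (0 : ℝ) ≤ (Y (M ^ (h + 1)) : ℝ) - Y 0 := by
      have : Y 0 ≤ Y (M ^ (h + 1)) := hY (Nat.zero_le _)
      have : (Y 0 : ℝ) ≤ Y (M ^ (h + 1)) := by exact_mod_cast this
      linarith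
    have hM0 : (0 : ℝ) < M := by exact_mod_cast hM
    have h2 : c0 k * ((h : ℝ) + 1) = k := by
      have : ((h : ℝ) + 1) = 4 * k ^ 3 * (k + 1) ^ 5 := by exact_mod_cast hh
      rw [this]
      unfold c0
      field_simp
    rw [h2] at h1
    push_cast
    refine h1.trans ?_
    have h3 : Phi ((M : ℝ) ^ (h + 1)) ((Y (M ^ (h + 1)) : ℝ) - Y 0) / k ≤ (M : ℝ) ^ (h + 1) / k :=
      div_le_div_of_nonneg_right (Phi_le_left (by positivity) hr0) hk0.le
    linarith

/-- The staircase function of a strictly monotone set. -/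
def stair (E : Finset (ℕ × ℕ)) (x : ℕ) : ℕ := (E.filter fun e => e.1 < x).sup fun e => e.2 + 1

lemma stair_mono (E : Finset (ℕ × ℕ)) : Monotone (stair E) := by
  intro a b hab
  unfold stair
  apply Finset.sup_mono
  intro e he
  rw [Finset.mem_filter] at he ⊢
  exact ⟨he.1, lt_of_lt_of_le he.2 hab⟩

lemma stair_compat (E : Finset (ℕ × ℕ)) (hE : ∀ e ∈ E, ∀ e' ∈ E, e.1 < e'.1 → e.2 < e'.2) :
    ∀ e ∈ E, stair E e.1 ≤ e.2 ∧ e.2 < stair E (e.1 + 1) := by
  intro e he
  constructor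
  · unfold stair
    apply Finset.sup_le
    intro e' he'
    rw [Finset.mem_filter] at he'
    exact hE e' he'.1 e he he'.2
  · unfold stair
    have : e.2 + 1 ≤ (E.filter fun e' => e'.1 < e.1 + 1).sup fun e' => e'.2 + 1 :=
      Finset.le_sup (f := fun e' : ℕ × ℕ => e'.2 + 1)
        (Finset.mem_filter.mpr ⟨he, Nat.lt_succ_self _⟩)
    omega

lemma stair_zero (E : Finset (ℕ × ℕ)) : stair E 0 = 0 := by
  unfold stair
  simp

lemma stair_le (E : Finset (ℕ × ℕ)) (n : ℕ) (hE : ∀ e ∈ E, e.2 < n) (x : ℕ) : stair E x ≤ n := by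
  unfold stair
  apply Finset.sup_le
  intro e he
  rw [Finset.mem_filter] at he
  exact hE e he.1

theorem upper_k (k : ℕ) (hk : 1 ≤ k) :
    ∃ N : ℕ, 0 < N ∧ N ≤ (4 * k * (k + 1) ^ 2) ^ ((k + 1) ^ 3 * (4 * k ^ 3 * (k + 1) ^ 5)) ∧
      ∀ n : ℕ, k * N ≤ n → ∃ f : ℕ → ℕ, (∀ x, x < n → f x < n) ∧
        (∀ x x', x < n → x' < n → f x = f x' → x = x') ∧
        ∀ E : Finset (ℕ × ℕ), (∀ e ∈ E, e.1 < n ∧ e.2 < n) →
          (∀ e ∈ E, ∀ e' ∈ E, e.1 = e'.1 → e = e') →
          (∀ e ∈ E, ∀ e' ∈ E, e.1 < e'.1 → e.2 < e'.2) →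
          (nw f E : ℝ) ≤ 14 * n / k := by
  obtain ⟨N, g, hN, hNle, hg, hgi, hb⟩ := exists_block k hk
  refine ⟨N, hN, hNle, ?_⟩
  intro n hn
  have hk0 : (0 : ℝ) < k := by exact_mod_cast hk
  set a := n / N with ha
  have haN : a * N ≤ n := Nat.div_mul_le_self _ _
  have haN2 : n < a * N + N := by
    have := Nat.lt_div_mul_add (a := n) hN
    omega
  refine ⟨fun x => (x / N) * N + (if x / N < a then g (x % N) else x % N), ?_, ?_, ?_⟩
  · intro x hx
    simp only
    have h1 := Nat.mod_lt x hN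
    have h2 := hg _ h1
    split_ifs with h
    · calc x / N * N + g (x % N) < x / N * N + N := by omega
        _ = (x / N + 1) * N := by ring
        _ ≤ a * N := Nat.mul_le_mul_right _ h
        _ ≤ n := haN
    · have : x / N * N + x % N = x := by rw [mul_comm]; exact Nat.div_add_mod x N
      omega
  · intro x x' _ _ heq
    simp only at heq
    have h1 := Nat.mod_lt x hN
    have h2 := hg _ h1
    have h1' := Nat.mod_lt x' hN
    have h2' := hg _ h1'
    have h3 : (if x / N < a then g (x % N) else x % N) < N := by split_ifs <;> assumption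
    have h3' : (if x' / N < a then g (x' % N) else x' % N) < N := by split_ifs <;> assumption
    have h4 : x / N = x' / N := by
      have e1 : (x / N * N + (if x / N < a then g (x % N) else x % N)) / N = x / N := by
        rw [Nat.add_comm, Nat.add_mul_div_right _ _ hN, Nat.div_eq_of_lt h3, zero_add]
      have e2 : (x' / N * N + (if x' / N < a then g (x' % N) else x' % N)) / N = x' / N := by
        rw [Nat.add_comm, Nat.add_mul_div_right _ _ hN, Nat.div_eq_of_lt h3', zero_add]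
      rw [← e1, ← e2, heq]
    rw [h4] at heq
    have h5 : x % N = x' % N := by
      split_ifs at heq with h
      · exact hgi _ _ h1 h1' (by omega)
      · omega
    rw [← Nat.div_add_mod x N, ← Nat.div_add_mod x' N, h4, h5]
  · intro E hE hinj hmono
    have hsplit := nw_le_sum E
      (fun x => (x / N) * N + (if x / N < a then g (x % N) else x % N)) N (a + 1) hN
      (fun e he => by have := (hE e he).1; rw [add_mul, one_mul]; omega)
      (fun t => if t < a then g else id) (fun t => t * N)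
      (fun x => by
        split_ifs <;> rfl)
    rw [Finset.sum_range_succ] at hsplit
    set Y := stair E with hY
    have hYm : Monotone Y := stair_mono E
    have hYc := stair_compat E hmono
    have h1 : ∀ t ∈ range a, (nw ((fun t => if t < a then g else id) t)
        ((E.filter fun e => e.1 / N = t).image fun e => (e.1 % N, e.2)) : ℝ)
        ≤ 6 * (N + ((Y ((t + 1) * N) : ℝ) - Y (t * N))) / k + N / k := by
      intro t ht
      rw [mem_range] at ht
      simp only [ht, if_true]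
      have h7 := hb ((E.filter fun e => e.1 / N = t).image fun e => (e.1 % N, e.2))
        (by
          intro e he
          rw [Finset.mem_image] at he
          obtain ⟨e', _, rfl⟩ := he
          exact Nat.mod_lt _ hN)
        (by
          intro e he e' he' heq
          rw [Finset.mem_image] at he he'
          obtain ⟨a, ha, rfl⟩ := he
          obtain ⟨b, hb, rfl⟩ := he'
          rw [Finset.mem_filter] at ha hb
          simp only at heq
          have h8 : a.1 = b.1 := by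
            rw [← Nat.div_add_mod a.1 N, ← Nat.div_add_mod b.1 N, ha.2, hb.2, heq]
          rw [hinj a ha.1 b hb.1 h8])
        (fun x => Y (t * N + x)) (fun a b hab => hYm (Nat.add_le_add_left hab _))
        (by
          intro e he
          rw [Finset.mem_image] at he
          obtain ⟨a, ha, rfl⟩ := he
          rw [Finset.mem_filter] at ha
          have h8 := hYc a ha.1
          have h9 : t * N + a.1 % N = a.1 := by
            rw [← ha.2, mul_comm]; exact Nat.div_add_mod a.1 N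
          simp only
          rw [← add_assoc, h9]
          exact h8)
      simp only [add_zero] at h7
      rw [show t * N + N = (t + 1) * N by ring] at h7
      exact h7
    have h2 : (nw ((fun t => if t < a then g else id) a)
        ((E.filter fun e => e.1 / N = a).image fun e => (e.1 % N, e.2)) : ℝ) ≤ N := by
      refine le_trans (by exact_mod_cast nw_le_card _ _) (card_le_cols _ N ?_ ?_)
      · intro e he
        rw [Finset.mem_image] at he
        obtain ⟨e', _, rfl⟩ := he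
        exact Nat.mod_lt _ hN
      · intro e he e' he' heq
        rw [Finset.mem_image] at he he'
        obtain ⟨x, hx, rfl⟩ := he
        obtain ⟨y, hy, rfl⟩ := he'
        rw [Finset.mem_filter] at hx hy
        simp only at heq
        have h8 : x.1 = y.1 := by
          rw [← Nat.div_add_mod x.1 N, ← Nat.div_add_mod y.1 N, hx.2, hy.2, heq]
        rw [hinj x hx.1 y hy.1 h8]
    have h3 : (nw (fun x => (x / N) * N + (if x / N < a then g (x % N) else x % N)) E : ℝ)
        ≤ (∑ t ∈ range a, (6 * (N + ((Y ((t + 1) * N) : ℝ) - Y (t * N))) / k + N / k)) + N := by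
      have h := (Nat.cast_le (α := ℝ)).mpr hsplit
      push_cast at h
      exact h.trans (add_le_add (Finset.sum_le_sum h1) h2)
    have h4 : ∑ t ∈ range a, ((Y ((t + 1) * N) : ℝ) - Y (t * N)) ≤ n := by
      rw [Finset.sum_range_sub (fun t => (Y (t * N) : ℝ))]
      have h5 : Y (a * N) ≤ n := stair_le E n (fun e he => (hE e he).2) _
      have h6 : (Y (a * N) : ℝ) ≤ n := by exact_mod_cast h5
      have h7 : (0 : ℝ) ≤ Y (0 * N) := by positivity
      linarith
    have h5 : ∑ t ∈ range a, (6 * (N + ((Y ((t + 1) * N) : ℝ) - Y (t * N))) / k + N / k)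
        = 6 * (a * N + ∑ t ∈ range a, ((Y ((t + 1) * N) : ℝ) - Y (t * N))) / k + a * N / k := by
      rw [Finset.sum_add_distrib, ← Finset.sum_div, ← Finset.mul_sum, Finset.sum_add_distrib,
        Finset.sum_const, Finset.sum_const, card_range, nsmul_eq_mul, nsmul_eq_mul]
      ring
    rw [h5] at h3
    have haNr : (a : ℝ) * N ≤ n := by exact_mod_cast haN
    have hNk : (N : ℝ) ≤ n / k := by
      rw [le_div_iff₀ hk0]
      have : (k : ℝ) * N ≤ n := by exact_mod_cast hn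
      linarith
    refine h3.trans ?_
    have h6 : 6 * (a * N + ∑ t ∈ range a, ((Y ((t + 1) * N) : ℝ) - Y (t * N))) / k
        ≤ 6 * (n + n) / (k : ℝ) := by
      apply div_le_div_of_nonneg_right _ hk0.le
      linarith
    have h7 : (a : ℝ) * N / k ≤ n / k := div_le_div_of_nonneg_right haNr hk0.le
    have h8 : 14 * (n : ℝ) / k = 6 * (n + n) / (k : ℝ) + n / k + n / k := by ring
    rw [h8]
    linarith

/-- Size of the block. -/
lemma size_bound (k : ℕ) (hk : 1 ≤ k) :
    Real.log (k * ((4 * k * (k + 1) ^ 2) ^ ((k + 1) ^ 3 * (4 * k ^ 3 * (k + 1) ^ 5)) : ℕ))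
      ≤ 3073 * (k : ℝ) ^ 12 := by
  have hk0 : (1 : ℝ) ≤ k := by exact_mod_cast hk
  have hk1 : (0 : ℝ) < k := by linarith
  push_cast
  rw [Real.log_mul (by positivity) (by positivity), Real.log_pow]
  have h1 : Real.log k ≤ (k : ℝ) ^ 12 := by
    have h2 := Real.log_le_sub_one_of_pos hk1
    have h3 : (k : ℝ) ≤ k ^ 12 := by
      calc (k : ℝ) = k ^ 1 := by ring
        _ ≤ k ^ 12 := pow_le_pow_right₀ hk0 (by norm_num)
    linarith
  have h2 : Real.log (4 * k * ((k : ℝ) + 1) ^ 2) ≤ 3 * k := by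
    have h3 : (4 * k * ((k : ℝ) + 1) ^ 2) ≤ 16 * k ^ 3 := by
      calc (4 * (k : ℝ) * ((k : ℝ) + 1) ^ 2) ≤ 4 * (k : ℝ) * (2 * (k : ℝ)) ^ 2 := by
            gcongr; linarith
        _ = 16 * (k : ℝ) ^ 3 := by ring
    have h4 : Real.log (4 * k * ((k : ℝ) + 1) ^ 2) ≤ Real.log (16 * k ^ 3) :=
      Real.log_le_log (by positivity) h3
    refine h4.trans ?_
    rw [Real.log_mul (by norm_num) (by positivity), Real.log_pow]
    have h5 := Real.log_le_sub_one_of_pos hk1
    have h6 : Real.log 16 ≤ 3 := by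
      rw [show (16 : ℝ) = 2 ^ 4 by norm_num, Real.log_pow]
      have := Real.log_two_lt_d9
      push_cast
      linarith
    push_cast
    linarith
  have h3 : (((k : ℝ) + 1) ^ 3 * (4 * k ^ 3 * (k + 1) ^ 5)) ≤ 1024 * k ^ 11 := by
    have h4 : (k : ℝ) + 1 ≤ 2 * k := by linarith
    calc (((k : ℝ) + 1) ^ 3 * (4 * (k : ℝ) ^ 3 * ((k : ℝ) + 1) ^ 5))
        = 4 * (k : ℝ) ^ 3 * ((k : ℝ) + 1) ^ 8 := by ring
      _ ≤ 4 * (k : ℝ) ^ 3 * (2 * (k : ℝ)) ^ 8 := by gcongr
      _ = 1024 * (k : ℝ) ^ 11 := by ring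
  have h4 : (0 : ℝ) ≤ 3 * k := by positivity
  calc Real.log k + ((((k + 1) ^ 3 * (4 * k ^ 3 * (k + 1) ^ 5) : ℕ)) : ℝ)
        * Real.log (4 * k * ((k : ℝ) + 1) ^ 2)
      ≤ (k : ℝ) ^ 12 + (((k : ℝ) + 1) ^ 3 * (4 * k ^ 3 * (k + 1) ^ 5)) * (3 * k) := by
        push_cast
        apply add_le_add h1
        apply mul_le_mul_of_nonneg_left h2 (by positivity)
    _ ≤ (k : ℝ) ^ 12 + (1024 * k ^ 11) * (3 * k) := by gcongr
    _ = 3073 * (k : ℝ) ^ 12 := by ring

/-- The combinatorial upper bound: for all large `n` there is a permutation of `{0, …, n-1}`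
such that every strictly monotone set sees few weights. -/
theorem upper_comb : ∃ n₀ : ℕ, ∀ n : ℕ, n₀ ≤ n → ∃ f : ℕ → ℕ, (∀ x, x < n → f x < n) ∧
    (∀ x x', x < n → x' < n → f x = f x' → x = x') ∧
    ∀ E : Finset (ℕ × ℕ), (∀ e ∈ E, e.1 < n ∧ e.2 < n) →
      (∀ e ∈ E, ∀ e' ∈ E, e.1 = e'.1 → e = e') →
      (∀ e ∈ E, ∀ e' ∈ E, e.1 < e'.1 → e.2 < e'.2) →
      (nw f E : ℝ) ≤ 56 * n / (Real.log n) ^ ((1 : ℝ) / 12) := by
  refine ⟨⌈Real.exp 3073⌉₊, ?_⟩
  intro n hn
  have hn1 : Real.exp 3073 ≤ n := Nat.ceil_le.mp hn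
  have hn0 : (0 : ℝ) < n := lt_of_lt_of_le (Real.exp_pos _) hn1
  have hlog : 3073 ≤ Real.log n := by
    rw [Real.le_log_iff_exp_le hn0]; exact hn1
  set y : ℝ := (Real.log n / 3073) ^ ((1 : ℝ) / 12) with hy
  have hy1 : 1 ≤ y := by
    rw [hy]
    apply Real.one_le_rpow _ (by norm_num)
    rw [le_div_iff₀ (by norm_num)]; linarith
  set k := ⌊y⌋₊ with hk
  have hk1 : 1 ≤ k := by rw [hk]; exact Nat.one_le_floor_iff _ |>.mpr hy1
  have hky : (k : ℝ) ≤ y := Nat.floor_le (by linarith)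
  have hky2 : y / 2 ≤ k := by
    have h1 : y < k + 1 := Nat.lt_floor_add_one y
    have h2 : (1 : ℝ) ≤ k := by exact_mod_cast hk1
    linarith
  have hk12 : 3073 * (k : ℝ) ^ 12 ≤ Real.log n := by
    have h1 : (k : ℝ) ^ 12 ≤ y ^ 12 := pow_le_pow_left₀ (by positivity) hky 12
    have h2 : y ^ 12 = Real.log n / 3073 := by
      rw [hy, ← Real.rpow_natCast, ← Real.rpow_mul (by positivity)]
      norm_num
    rw [h2] at h1
    linarith
  obtain ⟨N, hN, hNle, hmain⟩ := upper_k k hk1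
  have hkN : k * N ≤ n := by
    have h1 := size_bound k hk1
    have h2 := h1.trans hk12
    have h3 : (0 : ℝ) < k := by exact_mod_cast hk1
    have h4 : ((k : ℝ) * ((4 * k * (k + 1) ^ 2) ^ ((k + 1) ^ 3 * (4 * k ^ 3 * (k + 1) ^ 5)) : ℕ))
        ≤ n := by
      rw [← Real.log_le_log_iff (by positivity) hn0]
      exact h2
    have h5 : k * ((4 * k * (k + 1) ^ 2) ^ ((k + 1) ^ 3 * (4 * k ^ 3 * (k + 1) ^ 5))) ≤ n := by
      exact_mod_cast h4
    exact (Nat.mul_le_mul_left _ hNle).trans h5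
  obtain ⟨f, hf1, hf2, hf3⟩ := hmain n hkN
  refine ⟨f, hf1, hf2, ?_⟩
  intro E hE hinj hmono
  refine (hf3 E hE hinj hmono).trans ?_
  have hlog0 : 0 < Real.log n := by linarith
  have hpos : 0 < (Real.log n) ^ ((1 : ℝ) / 12) := Real.rpow_pos_of_pos hlog0 _
  have hk0 : (0 : ℝ) < k := by exact_mod_cast hk1
  rw [div_le_div_iff₀ hk0 hpos]
  have h1 : (Real.log n) ^ ((1 : ℝ) / 12) ≤ 4 * k := by
    have h2 : (Real.log n) ^ ((1 : ℝ) / 12) = y * (3073 : ℝ) ^ ((1 : ℝ) / 12) := by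
      rw [hy, ← Real.mul_rpow (by positivity) (by norm_num)]
      congr 1
      field_simp
    have h3 : (3073 : ℝ) ^ ((1 : ℝ) / 12) ≤ 2 := by
      have h4 : (3073 : ℝ) ^ ((1 : ℝ) / 12) ≤ (4096 : ℝ) ^ ((1 : ℝ) / 12) :=
        Real.rpow_le_rpow (by norm_num) (by norm_num) (by norm_num)
      have h5 : (4096 : ℝ) ^ ((1 : ℝ) / 12) = 2 := by
        rw [show (4096 : ℝ) = (2 : ℝ) ^ (12 : ℝ) by norm_num, ← Real.rpow_mul (by norm_num)]
        norm_num
      linarith
    rw [h2]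
    calc y * (3073 : ℝ) ^ ((1 : ℝ) / 12) ≤ y * 2 := by
          apply mul_le_mul_of_nonneg_left h3 (by linarith)
      _ ≤ 4 * k := by linarith
  nlinarith

end Pool.Agent.Lib.MP_70146a_co
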