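import Mathlib

/-!
Plane geometry of separated point sets in convex position.
-/

namespace Pool.Agent.Lib.MP_70146a_co

open Set

/-- Twice the signed area of the triangle `p q r`. -/
def orient (p q r : ℝ × ℝ) : ℝ := (q.1 - p.1) * (r.2 - p.2) - (q.2 - p.2) * (r.1 - p.1)

lemma orient_rot (p q r : ℝ × ℝ) : orient p q r = orient q r p := by unfold orient; ring

lemma orient_swap (p q r : ℝ × ℝ) : orient p q r = - orient q p r := by unfold orient; ring

lemma orient_swap' (p q r : ℝ × ℝ) : orient p q r = - orient p r q := by unfold orient; ring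

/-- Convex position. -/
def ConvPos (P : Set (ℝ × ℝ)) : Prop := ∀ p ∈ P, p ∉ convexHull ℝ (P \ {p})

lemma hull_contra {P : Set (ℝ × ℝ)} (hP : ConvPos P) {p q r s : ℝ × ℝ} (hp : p ∈ P) (hq : q ∈ P)
    (hr : r ∈ P) (hs : s ∈ P) (hqp : q ≠ p) (hrp : r ≠ p) (hsp : s ≠ p) {a b c d : ℝ} (ha : a < 0)
    (hb : 0 ≤ b) (hc : 0 ≤ c) (hd : 0 ≤ d) (hsum : a + b + c + d = 0)
    (h1 : a * p.1 + b * q.1 + c * r.1 + d * s.1 = 0)
    (h2 : a * p.2 + b * q.2 + c * r.2 + d * s.2 = 0) : False := by
  apply hP p hp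
  have hconv := convex_convexHull ℝ (P \ {p})
  have hq' : q ∈ convexHull ℝ (P \ {p}) := subset_convexHull _ _ ⟨hq, hqp⟩
  have hr' : r ∈ convexHull ℝ (P \ {p}) := subset_convexHull _ _ ⟨hr, hrp⟩
  have hs' : s ∈ convexHull ℝ (P \ {p}) := subset_convexHull _ _ ⟨hs, hsp⟩
  obtain ⟨m, hm⟩ : ∃ m, a = -m := ⟨-a, by ring⟩
  subst hm
  have hm0 : 0 < m := by linarith
  obtain ⟨y, hy⟩ : ∃ y, y = (b / m) • q + (c / m) • r + (d / m) • s := ⟨_, rfl⟩
  have hp' : y = p := by
    rw [hy]
    ext
    · simp only [Prod.fst_add, Prod.smul_fst, smul_eq_mul]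
      field_simp
      linarith
    · simp only [Prod.snd_add, Prod.smul_snd, smul_eq_mul]
      field_simp
      linarith
  have h3 := hconv.sum_mem (t := Finset.univ) (w := ![b / m, c / m, d / m])
    (z := ![q, r, s]) ?_ ?_ ?_
  · have h4 : y ∈ convexHull ℝ (P \ {p}) := by
      rw [hy]
      simpa [Fin.sum_univ_three] using h3
    exact hp' ▸ h4
  · intro i _
    fin_cases i <;> simp only [Fin.zero_eta, Fin.mk_one, Fin.reduceFinMk, Matrix.cons_val_zero,
      Matrix.cons_val_one, Matrix.cons_val] <;> positivity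
  · simp only [Fin.sum_univ_three, Matrix.cons_val_zero, Matrix.cons_val_one, Matrix.cons_val]
    field_simp
    linarith
  · intro i _
    fin_cases i
    · exact hq'
    · exact hr'
    · exact hs'

lemma orient_ne_zero {P : Set (ℝ × ℝ)} (hP : ConvPos P) {p q r : ℝ × ℝ} (hp : p ∈ P)
    (hq : q ∈ P) (hr : r ∈ P) (hpq : p ≠ q) (hpr : p ≠ r) (hqr : q ≠ r) : orient p q r ≠ 0 := by
  intro h
  -- `r = p + t (q - p)`
  have ht : ∃ t : ℝ, r.1 = p.1 + t * (q.1 - p.1) ∧ r.2 = p.2 + t * (q.2 - p.2) := by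
    unfold orient at h
    by_cases h1 : q.1 - p.1 = 0
    · have h2 : q.2 - p.2 ≠ 0 := by
        intro h2
        apply hpq
        ext <;> linarith
      refine ⟨(r.2 - p.2) / (q.2 - p.2), ?_, ?_⟩
      · rw [h1] at h ⊢
        have h3 : (q.2 - p.2) * (r.1 - p.1) = 0 := by linarith
        rcases mul_eq_zero.mp h3 with h4 | h4
        · exact absurd h4 h2
        · linarith
      · field_simp
        ring
    · refine ⟨(r.1 - p.1) / (q.1 - p.1), ?_, ?_⟩
      · field_simp
        ring
      · field_simp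
        linarith
  obtain ⟨t, ht1, ht2⟩ := ht
  rcases lt_or_ge t 0 with h0 | h0
  · -- `p` is between `q` and `r`
    refine hull_contra hP hp hq hr hr hpq.symm hpr.symm hpr.symm (a := -(1 - t)) (b := -t)
      (c := 1 / 2) (d := 1 / 2) (by linarith) (by linarith) (by norm_num) (by norm_num)
      (by ring) ?_ ?_
    · rw [ht1]; ring
    · rw [ht2]; ring
  · rcases le_or_gt t 1 with h1 | h1
    · refine hull_contra hP hr hp hq hq hpr hqr hqr (a := -1) (b := 1 - t) (c := t / 2)
        (d := t / 2) (by norm_num) (by linarith) (by linarith) (by linarith) (by ring) ?_ ?_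
      · rw [ht1]; ring
      · rw [ht2]; ring
    · refine hull_contra hP hq hp hr hr hpq hqr.symm hqr.symm (a := -t) (b := t - 1)
        (c := 1 / 2) (d := 1 / 2) (by linarith) (by linarith) (by norm_num) (by norm_num)
        (by ring) ?_ ?_
      · rw [ht1]; ring
      · rw [ht2]; ring

/-- The affine dependence of four points. -/
lemma dep_fst (p q r s : ℝ × ℝ) : orient q r s * p.1 + (-orient p r s) * q.1 + orient p q s * r.1
    + (-orient p q r) * s.1 = 0 := by unfold orient; ring

lemma dep_snd (p q r s : ℝ × ℝ) : orient q r s * p.2 + (-orient p r s) * q.2 + orient p q s * r.2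
    + (-orient p q r) * s.2 = 0 := by unfold orient; ring

lemma dep_sum (p q r s : ℝ × ℝ) : orient q r s + (-orient p r s) + orient p q s
    + (-orient p q r) = 0 := by unfold orient; ring

/-- The four-point lemma: `r, r'` strictly on one side and `b, b'` strictly on the other side of
a line, in convex position. -/
lemma quad {P : Set (ℝ × ℝ)} (hP : ConvPos P) {r r' b b' : ℝ × ℝ} (hr : r ∈ P) (hr' : r' ∈ P)
    (hb : b ∈ P) (hb' : b' ∈ P) (hrr : r ≠ r') (hbb : b ≠ b') (α β c : ℝ)
    (h1 : α * r.1 + β * r.2 < c) (h2 : α * r'.1 + β * r'.2 < c) (h3 : c < α * b.1 + β * b.2)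
    (h4 : c < α * b'.1 + β * b'.2) :
    0 < orient r r' b * orient r r' b' ∧ 0 < orient b b' r * orient b b' r' := by
  have hrb : r ≠ b := by rintro rfl; linarith
  have hrb' : r ≠ b' := by rintro rfl; linarith
  have hr'b : r' ≠ b := by rintro rfl; linarith
  have hr'b' : r' ≠ b' := by rintro rfl; linarith
  have hA := orient_ne_zero hP hr' hb hb' hr'b hr'b' hbb
  have hB := orient_ne_zero hP hr hb hb' hrb hrb' hbb
  have hC := orient_ne_zero hP hr hr' hb' hrr hrb' hr'b'
  have hD := orient_ne_zero hP hr hr' hb hrr hrb hr'b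
  have e1 := dep_fst r r' b b'
  have e2 := dep_snd r r' b b'
  have e3 := dep_sum r r' b b'
  rw [orient_rot b b' r, orient_rot b' r b, orient_rot b b' r', orient_rot b' r' b]
  set A := orient r' b b' with hAdef
  set B := orient r b b' with hBdef
  set C := orient r r' b' with hCdef
  set D := orient r r' b with hDdef
  -- the height
  have e4 : A * (α * r.1 + β * r.2 - c) + (-B) * (α * r'.1 + β * r'.2 - c)
      + C * (α * b.1 + β * b.2 - c) + (-D) * (α * b'.1 + β * b'.2 - c) = 0 := by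
    have : A * (α * r.1 + β * r.2 - c) + (-B) * (α * r'.1 + β * r'.2 - c)
      + C * (α * b.1 + β * b.2 - c) + (-D) * (α * b'.1 + β * b'.2 - c)
      = α * (A * r.1 + (-B) * r'.1 + C * b.1 + (-D) * b'.1)
        + β * (A * r.2 + (-B) * r'.2 + C * b.2 + (-D) * b'.2) - c * (A + (-B) + C + (-D)) := by
      ring
    rw [this, e1, e2, e3]; ring
  have hx1 : α * r.1 + β * r.2 - c < 0 := by linarith
  have hx2 : α * r'.1 + β * r'.2 - c < 0 := by linarith
  have hx3 : 0 < α * b.1 + β * b.2 - c := by linarith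
  have hx4 : 0 < α * b'.1 + β * b'.2 - c := by linarith
  rcases lt_or_gt_of_ne hA with sA | sA <;> rcases lt_or_gt_of_ne hB with sB | sB <;>
    rcases lt_or_gt_of_ne hC with sC | sC <;> rcases lt_or_gt_of_ne hD with sD | sD
  -- A<0 B<0 C<0 D<0
  · exact ⟨mul_pos_of_neg_of_neg sD sC, mul_pos_of_neg_of_neg sB sA⟩
  -- A<0 B<0 C<0 D>0 : w = (-,+,-,-)
  · exact (hull_contra hP hr' hr hb hb' hrr hr'b.symm hr'b'.symm (a := B) (b := -A) (c := -C)
      (d := D) sB (by linarith) (by linarith) (by linarith) (by linarith) (by linarith)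
      (by linarith)).elim
  -- A<0 B<0 C>0 D<0 : w = (-,+,+,+)
  · exact (hull_contra hP hr hr' hb hb' hrr.symm hrb.symm hrb'.symm (a := A) (b := -B) (c := C)
      (d := -D) sA (by linarith) (by linarith) (by linarith) (by linarith) (by linarith)
      (by linarith)).elim
  -- A<0 B<0 C>0 D>0
  · exact ⟨mul_pos sD sC, mul_pos_of_neg_of_neg sB sA⟩
  -- A<0 B>0 C<0 D<0 : w = (-,-,-,+)
  · exact (hull_contra hP hb' hr hr' hb hrb' hr'b' hbb (a := D) (b := -A) (c := B)
      (d := -C) sD (by linarith) (by linarith) (by linarith) (by linarith) (by linarith)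
      (by linarith)).elim
  -- A<0 B>0 C<0 D>0 : w = (-,-,-,-)
  · linarith
  -- A<0 B>0 C>0 D<0 : w = (-,-,+,+)
  · nlinarith [mul_pos_of_neg_of_neg sA hx1, mul_pos_of_neg_of_neg (neg_neg_of_pos sB) hx2,
      mul_pos sC hx3, mul_pos (neg_pos.mpr sD) hx4]
  -- A<0 B>0 C>0 D>0 : w = (-,-,+,-)
  · exact (hull_contra hP hb hr hr' hb' hrb hr'b hbb.symm (a := -C) (b := -A) (c := B)
      (d := D) (by linarith) (by linarith) (by linarith) (by linarith) (by linarith) (by linarith)
      (by linarith)).elim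
  -- A>0 B<0 C<0 D<0 : w = (+,+,-,+)
  · exact (hull_contra hP hb hr hr' hb' hrb hr'b hbb.symm (a := C) (b := A) (c := -B)
      (d := -D) (by linarith) (by linarith) (by linarith) (by linarith) (by linarith) (by linarith)
      (by linarith)).elim
  -- A>0 B<0 C<0 D>0 : w = (+,+,-,-)
  · nlinarith [mul_pos sA (neg_pos.mpr hx1), mul_pos (neg_pos.mpr sB) (neg_pos.mpr hx2),
      mul_pos (neg_pos.mpr sC) hx3, mul_pos sD hx4]
  -- A>0 B<0 C>0 D<0 : w = (+,+,+,+)
  · linarith
  -- A>0 B<0 C>0 D>0 : w = (+,+,+,-)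
  · exact (hull_contra hP hb' hr hr' hb hrb' hr'b' hbb (a := -D) (b := A) (c := -B)
      (d := C) (by linarith) (by linarith) (by linarith) (by linarith) (by linarith) (by linarith)
      (by linarith)).elim
  -- A>0 B>0 C<0 D<0
  · exact ⟨mul_pos_of_neg_of_neg sD sC, mul_pos sB sA⟩
  -- A>0 B>0 C<0 D>0 : w = (+,-,-,-)
  · exact (hull_contra hP hr hr' hb hb' hrr.symm hrb.symm hrb'.symm (a := -A) (b := B) (c := -C)
      (d := D) (by linarith) (by linarith) (by linarith) (by linarith) (by linarith) (by linarith)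
      (by linarith)).elim
  -- A>0 B>0 C>0 D<0 : w = (+,-,+,+)
  · exact (hull_contra hP hr' hr hb hb' hrr hr'b.symm hr'b'.symm (a := -B) (b := A) (c := C)
      (d := -D) (by linarith) (by linarith) (by linarith) (by linarith) (by linarith) (by linarith)
      (by linarith)).elim
  -- A>0 B>0 C>0 D>0
  · exact ⟨mul_pos sD sC, mul_pos sB sA⟩

lemma orient_segment {p q x y z : ℝ × ℝ} (hz : z ∈ segment ℝ x y) :
    ∃ s t : ℝ, 0 ≤ s ∧ 0 ≤ t ∧ s + t = 1 ∧ z = s • x + t • y ∧
      orient p q z = s * orient p q x + t * orient p q y := by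
  obtain ⟨s, t, hs, ht, hst, rfl⟩ := hz
  refine ⟨s, t, hs, ht, hst, rfl, ?_⟩
  unfold orient
  simp only [Prod.fst_add, Prod.snd_add, Prod.smul_fst, Prod.smul_snd, smul_eq_mul]
  have hs' : s = 1 - t := by linarith
  rw [hs']; ring

/-- Non-crossing criterion. -/
lemma disjoint_segments {r r' b b' : ℝ × ℝ} (h : 0 < orient r' b' r * orient r' b' b) :
    ∀ x, x ∈ segment ℝ r b → x ∈ segment ℝ r' b' → False := by
  intro x hx hx'
  obtain ⟨s, t, hs, ht, hst, _, h1⟩ := orient_segment (p := r') (q := b') hx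
  obtain ⟨s', t', _, _, _, _, h2⟩ := orient_segment (p := r') (q := b') hx'
  have h3 : orient r' b' r' = 0 := by unfold orient; ring
  have h4 : orient r' b' b' = 0 := by unfold orient; ring
  rw [h3, h4] at h2
  rw [h2] at h1
  rcases pos_and_pos_or_neg_and_neg_of_mul_pos h with ⟨ha, hb⟩ | ⟨ha, hb⟩
  · rcases eq_or_lt_of_le hs with h0 | h0
    · have : t = 1 := by linarith
      rw [← h0, this] at h1; linarith
    · nlinarith [mul_pos h0 ha, mul_nonneg ht hb.le]
  · rcases eq_or_lt_of_le hs with h0 | h0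
    · have : t = 1 := by linarith
      rw [← h0, this] at h1; linarith
    · nlinarith [mul_pos h0 (neg_pos.mpr ha), mul_nonneg ht (neg_pos.mpr hb).le]

/-- Two segments with a common endpoint and not collinear meet only there. -/
lemma inter_common {o b b' : ℝ × ℝ} (h : orient o b b' ≠ 0) :
    ∀ x, x ∈ segment ℝ o b → x ∈ segment ℝ o b' → x = o := by
  intro x hx hx'
  obtain ⟨s, t, hs, ht, hst, hxeq, h1⟩ := orient_segment (p := o) (q := b') hx
  obtain ⟨s', t', _, _, _, _, h2⟩ := orient_segment (p := o) (q := b') hx'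
  have h3 : orient o b' o = 0 := by unfold orient; ring
  have h4 : orient o b' b' = 0 := by unfold orient; ring
  have h5 : orient o b' b = - orient o b b' := orient_swap' _ _ _
  rw [h3, h4] at h2
  rw [h2, h3, h5] at h1
  have h6 : t = 0 := by
    have : t * orient o b b' = 0 := by linarith
    rcases mul_eq_zero.mp this with h7 | h7
    · exact h7
    · exact absurd h7 h
  have h7 : s = 1 := by linarith
  rw [hxeq, h6, h7]; simp

/-- Angular keys in an open half-plane. -/
lemma exists_key {ι : Type*} (x : ι → ℝ × ℝ) (o : ℝ × ℝ) (α β : ℝ) (hαβ : 0 < α ^ 2 + β ^ 2)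
    (ε : ℝ) (h : ∀ i, 0 < ε * (α * ((x i).1 - o.1) + β * ((x i).2 - o.2))) :
    ∃ key : ι → ℝ, ∀ i j, (0 < orient (x i) (x j) o ↔ key i < key j) := by
  refine ⟨fun i => (-β * ((x i).1 - o.1) + α * ((x i).2 - o.2)) /
    (α * ((x i).1 - o.1) + β * ((x i).2 - o.2)), ?_⟩
  intro i j
  simp only
  set fi := α * ((x i).1 - o.1) + β * ((x i).2 - o.2) with hfi
  set fj := α * ((x j).1 - o.1) + β * ((x j).2 - o.2) with hfj
  set gi := -β * ((x i).1 - o.1) + α * ((x i).2 - o.2) with hgi
  set gj := -β * ((x j).1 - o.1) + α * ((x j).2 - o.2) with hgj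
  have hi := h i
  have hj := h j
  rw [← hfi] at hi
  rw [← hfj] at hj
  have hfi0 : fi ≠ 0 := by rintro h0; rw [h0] at hi; simp at hi
  have hfj0 : fj ≠ 0 := by rintro h0; rw [h0] at hj; simp at hj
  have hprod : 0 < fi * fj := by
    have h1 : 0 < (ε * fi) * (ε * fj) := mul_pos hi hj
    have h2 : (ε * fi) * (ε * fj) = ε ^ 2 * (fi * fj) := by ring
    rw [h2] at h1
    have h3 : 0 ≤ ε ^ 2 := sq_nonneg _
    by_contra h4
    push Not at h4
    nlinarith
  have hkey : (α ^ 2 + β ^ 2) * orient (x i) (x j) o = fi * fj * (gj / fj - gi / fi) := by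
    have h1 : fi * fj * (gj / fj - gi / fi) = fi * gj - fj * gi := by
      field_simp
    rw [h1, hfi, hfj, hgi, hgj]
    unfold orient
    ring
  constructor
  · intro h1
    have h2 : 0 < fi * fj * (gj / fj - gi / fi) := by rw [← hkey]; positivity
    have h3 := (pos_iff_pos_of_mul_pos h2).mp hprod
    linarith
  · intro h1
    have h2 : 0 < fi * fj * (gj / fj - gi / fi) := mul_pos hprod (by linarith)
    rw [← hkey] at h2
    exact (pos_iff_pos_of_mul_pos h2).mp hαβ

end Pool.Agent.Lib.MP_70146a_co
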