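import Mathlib
import Pool.Agent.Lib.MP_70146a_co.Lower

/-!
Asymptotic form of the combinatorial lower bound.
-/

namespace Pool.Agent.Lib.MP_70146a_co

open Finset

lemma log_small (n : ℝ) (hn : 10 ^ 13 ≤ n) : 10 ^ 6 * Real.log n ≤ n := by
  have hn0 : 0 < n := by linarith
  set r := Real.sqrt n with hr
  have hr0 : 0 < r := Real.sqrt_pos.mpr hn0
  have hrr : r * r = n := Real.mul_self_sqrt hn0.le
  have h1 : Real.log n = 2 * Real.log r := by
    rw [← hrr, Real.log_mul hr0.ne' hr0.ne']; ring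
  have h2 : Real.log r ≤ r := by
    have := Real.log_le_sub_one_of_pos hr0
    linarith
  have h3 : 2 * 10 ^ 6 ≤ r := by
    rw [hr]
    apply Real.le_sqrt_of_sq_le
    norm_num
    linarith
  rw [h1]
  nlinarith

theorem lower_comb : ∃ n₀ : ℕ, ∀ n : ℕ, n₀ ≤ n → ∀ b : ℕ → ℤ,
    (∀ x x', x < n → x' < n → b x = b x' → x = x') →
    ∃ (m : ℕ) (j i : ℕ → ℕ), (n : ℝ) / (50000 * Real.log n) ≤ 2 * m ∧
      (∀ k l, k < l → l ≤ m → j k < j l) ∧
      (∀ k ≤ m, j k < n) ∧ (∀ k l, k < l → l < m → i k < i l) ∧ (∀ k < m, 2 * i k < n) ∧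
      (∀ k < m, ∀ l < m, ∀ x, (x = j k ∨ x = j (k + 1)) → ∀ y, (y = j l ∨ y = j (l + 1)) →
        (i k : ℤ) + b x = i l + b y → k = l ∧ x = y) := by
  refine ⟨10 ^ 13, ?_⟩
  intro n hn b hb
  have hnr : (10 : ℝ) ^ 13 ≤ n := by exact_mod_cast hn
  have hn0 : (0 : ℝ) < n := by linarith
  have hlog6 := log_small n hnr
  have hlog1 : 1 ≤ Real.log n := by
    rw [Real.le_log_iff_exp_le hn0]
    have := Real.exp_one_lt_d9
    linarith
  set D : ℕ := ⌈1152 * (19 + 18 * Real.log n)⌉₊ with hD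
  have hD1 : 1152 * (19 + 18 * Real.log n) ≤ D := Nat.le_ceil _
  have hD2 : (D : ℝ) < 1152 * (19 + 18 * Real.log n) + 1 := Nat.ceil_lt_add_one (by positivity)
  have hD3 : (D : ℝ) ≤ 42625 * Real.log n := by linarith
  have hD64 : 64 ≤ D := by
    have : (64 : ℝ) ≤ D := by linarith
    exact_mod_cast this
  have hDn : D ≤ n := by
    have : (D : ℝ) ≤ n := by linarith
    exact_mod_cast this
  have hD0 : 0 < D := by omega
  have hD0r : (0 : ℝ) < D := by exact_mod_cast hD0
  set S := n / D with hS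
  have hS0 : 0 < S := Nat.div_pos hDn hD0
  have hDS : D * S ≤ n := Nat.mul_div_le n D
  have hSr : (n : ℝ) / D < S + 1 := by
    rw [div_lt_iff₀ hD0r]
    have h1 : n < D * (S + 1) := by
      have := Nat.lt_mul_div_succ n hD0
      rw [← hS] at this
      exact this
    have h2 : (n : ℝ) < D * (S + 1) := by exact_mod_cast h1
    linarith
  have hSlog : Real.log S ≤ Real.log n := by
    apply Real.log_le_log (by exact_mod_cast hS0)
    have : S ≤ n := Nat.div_le_self _ _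
    exact_mod_cast this
  obtain ⟨m, j, i, h1, h2, h3, h4, h5, h6⟩ := zigzag n D S hD64 hS0 hDS (by linarith) b hb
  refine ⟨m, j, i, ?_, h2, h3, h4, h5, h6⟩
  have h7 : (n : ℝ) / (42625 * Real.log n) ≤ n / D :=
    div_le_div_of_nonneg_left hn0.le hD0r hD3
  set X : ℝ := n / Real.log n with hX
  have hX6 : 10 ^ 6 ≤ X := by
    rw [hX, le_div_iff₀ (by linarith)]; exact hlog6
  have e1 : (n : ℝ) / (42625 * Real.log n) = X / 42625 := by
    rw [hX]; field_simp
  have e2 : (n : ℝ) / (50000 * Real.log n) = X / 50000 := by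
    rw [hX]; field_simp
  rw [e1] at h7
  rw [e2]
  linarith

end Pool.Agent.Lib.MP_70146a_co
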